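import Pool.Agent.H.MP_08eaf3_pr.Defs2
import Pool.Agent.H.MP_08eaf3_pr.I.Lse

/-!
# Part C: basic facts about the Hamiltonian and the partition functions
-/

set_option autoImplicit false

open MeasureTheory ProbabilityTheory Filter Topology Matrix

namespace SKC.C

variable {K : Type} {N : ℕ}

/-- single Hamiltonian -/
noncomputable def hh (x : Fin N × Fin N → ℝ) (s : Fin N → Bool) : ℝ :=
  ∑ p, x p * (sg (s p.1) * sg (s p.2)) / Real.sqrt N

/-- the spins of coordinate `c` -/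
def row (ρ : Cfg K N) (c : K) : Fin N → Bool := fun i => ρ i c

/-- single Boltzmann weight -/
noncomputable def wt (b : ℝ) (x : Fin N × Fin N → ℝ) (s : Fin N → Bool) : ℝ := Real.exp (b * hh x s)

/-- single partition function -/
noncomputable def Z1 (b : ℝ) (x : Fin N × Fin N → ℝ) : ℝ := ∑ s : Fin N → Bool, wt b x s

/-- partition function of the set `E` -/
noncomputable def ZE [Fintype K] (β : K → ℝ) (E : Finset (Cfg K N)) (x : Fin N × Fin N → ℝ) : ℝ :=
  ∑ ρ ∈ E, Real.exp (dot x (vH β N ρ))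

theorem wt_pos (b : ℝ) (x : Fin N × Fin N → ℝ) (s : Fin N → Bool) : 0 < wt b x s := Real.exp_pos _

theorem Z1_pos (b : ℝ) (x : Fin N × Fin N → ℝ) : 0 < Z1 b x :=
  Finset.sum_pos (fun s _ => wt_pos b x s) Finset.univ_nonempty

theorem dot_vH [Fintype K] (β : K → ℝ) (ρ : Cfg K N) (x : Fin N × Fin N → ℝ) :
    dot x (vH β N ρ) = ∑ c, β c * hh x (row ρ c) := by
  unfold dot vH hh row
  simp only [Finset.mul_sum, Finset.sum_div]
  rw [Finset.sum_comm]
  refine Finset.sum_congr rfl (fun c _ => Finset.sum_congr rfl (fun p _ => ?_))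
  ring

theorem exp_dot_vH [Fintype K] (β : K → ℝ) (ρ : Cfg K N) (x : Fin N × Fin N → ℝ) :
    Real.exp (dot x (vH β N ρ)) = ∏ c, wt (β c) x (row ρ c) := by
  rw [dot_vH, Real.exp_sum]
  rfl

theorem ZE_eq [Fintype K] (β : K → ℝ) (E : Finset (Cfg K N)) (x : Fin N × Fin N → ℝ) :
    ZE β E x = ∑ ρ ∈ E, ∏ c, wt (β c) x (row ρ c) := by
  unfold ZE
  exact Finset.sum_congr rfl (fun ρ _ => exp_dot_vH β ρ x)

theorem ZE_pos [Fintype K] (β : K → ℝ) {E : Finset (Cfg K N)} (hE : E.Nonempty)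
    (x : Fin N × Fin N → ℝ) : 0 < ZE β E x :=
  Finset.sum_pos (fun _ _ => Real.exp_pos _) hE

theorem ZE_nonneg [Fintype K] (β : K → ℝ) (E : Finset (Cfg K N))
    (x : Fin N × Fin N → ℝ) : 0 ≤ ZE β E x :=
  Finset.sum_nonneg (fun _ _ => (Real.exp_pos _).le)

theorem ZE_mono [Fintype K] (β : K → ℝ) {E E' : Finset (Cfg K N)} (h : E ⊆ E')
    (x : Fin N × Fin N → ℝ) : ZE β E x ≤ ZE β E' x :=
  Finset.sum_le_sum_of_subset_of_nonneg h (fun _ _ _ => (Real.exp_pos _).le)

theorem continuous_ZE [Fintype K] (β : K → ℝ) (E : Finset (Cfg K N)) :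
    Continuous (fun x : Fin N × Fin N → ℝ => ZE β E x) :=
  continuous_finsetSum _ (fun _ _ => Real.continuous_exp.comp (SKC.I.continuous_dot _))

/-- log partition function -/
theorem lse_eq [Fintype K] (β : K → ℝ) (E : Finset (Cfg K N)) (x : Fin N × Fin N → ℝ) :
    lse E (fun ρ => dot x (vH β N ρ)) = Real.log (ZE β E x) := rfl

theorem EL_eq [Fintype K] (β : K → ℝ) (E : Finset (Cfg K N)) :
    EL E (vH β N) (fun _ => 0) = ∫ x, Real.log (ZE β E x) ∂(gam (Fin N × Fin N)) := by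
  unfold EL
  simp only [add_zero]
  rfl

theorem integrable_log_ZE [Fintype K] (β : K → ℝ) {E : Finset (Cfg K N)} (hE : E.Nonempty) :
    Integrable (fun x => Real.log (ZE β E x)) (gam (Fin N × Fin N)) := by
  have h := SKC.I.integrable_lse hE (vH β N) (fun _ => 0)
  simp only [add_zero] at h
  exact h

theorem EL_le_of_ZE_le {K' : Type} [Fintype K] [Fintype K'] (β : K → ℝ) (β' : K' → ℝ)
    {E : Finset (Cfg K N)} {E' : Finset (Cfg K' N)} (hE : E.Nonempty)
    (h : ∀ x, ZE β E x ≤ ZE β' E' x) :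
    E'.Nonempty ∧ EL E (vH β N) (fun _ => 0) ≤ EL E' (vH β' N) (fun _ => 0) := by
  have hE' : E'.Nonempty := by
    rw [Finset.nonempty_iff_ne_empty]
    rintro rfl
    have h0 := h 0
    have h1 := ZE_pos β hE 0
    have h2 : ZE β' (∅ : Finset (Cfg K' N)) 0 = 0 := by
      unfold ZE
      exact Finset.sum_empty
    linarith
  refine ⟨hE', ?_⟩
  rw [EL_eq, EL_eq]
  exact integral_mono (integrable_log_ZE β hE) (integrable_log_ZE β' hE')
    (fun x => Real.log_le_log (ZE_pos β hE x) (h x))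

/-- sum over all configurations of a product over the coordinates -/
theorem sum_row [Fintype K] [DecidableEq K] (f : K → (Fin N → Bool) → ℝ) :
    ∑ ρ : Cfg K N, ∏ c, f c (row ρ c) = ∏ c, ∑ s : Fin N → Bool, f c s := by
  have h1 := Finset.prod_univ_sum (fun _ : K => (Finset.univ : Finset (Fin N → Bool))) f
  rw [Fintype.piFinset_univ] at h1
  rw [h1]
  exact Fintype.sum_equiv (Equiv.piComm (fun (_ : Fin N) (_ : K) => Bool)) _ _ (fun ρ => rfl)

theorem ZE_univ [Fintype K] [DecidableEq K] (β : K → ℝ) (x : Fin N × Fin N → ℝ) :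
    ZE β (Finset.univ : Finset (Cfg K N)) x = ∏ c, Z1 (β c) x := by
  rw [ZE_eq]
  exact sum_row (fun c => wt (β c) x)

theorem Z1_eq (b : ℝ) (x : Fin N × Fin N → ℝ) :
    ZE (fun _ : Unit => b) (Finset.univ : Finset (Cfg Unit N)) x = Z1 b x := by
  rw [ZE_univ]
  simp

theorem integrable_log_Z1 (b : ℝ) :
    Integrable (fun x : Fin N × Fin N → ℝ => Real.log (Z1 b x)) (gam (Fin N × Fin N)) := by
  have h := integrable_log_ZE (N := N) (fun _ : Unit => b)
    (Finset.univ_nonempty (α := Cfg Unit N))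
  simp only [Z1_eq] at h
  exact h

theorem N_mul_FN (b : ℝ) (hN : 0 < N) :
    (N : ℝ) * FN b N = ∫ x : Fin N × Fin N → ℝ, Real.log (Z1 b x) ∂(gam (Fin N × Fin N)) := by
  have hN0 : (N : ℝ) ≠ 0 := by exact_mod_cast hN.ne'
  unfold FN
  rw [mul_div_cancel₀ _ hN0, EL_eq]
  simp only [Z1_eq]

/-- free energy of all configurations -/
theorem EL_univ [Fintype K] [DecidableEq K] (β : K → ℝ) (hN : 0 < N) :
    EL (Finset.univ : Finset (Cfg K N)) (vH β N) (fun _ => 0) = N * ∑ c, FN (β c) N := by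
  rw [EL_eq, Finset.mul_sum]
  simp only [ZE_univ]
  have h1 : ∀ x : Fin N × Fin N → ℝ, Real.log (∏ c, Z1 (β c) x) = ∑ c, Real.log (Z1 (β c) x) :=
    fun x => Real.log_prod (fun c _ => (Z1_pos (β c) x).ne')
  simp only [h1]
  rw [integral_finsetSum _ (fun c _ => integrable_log_Z1 (β c))]
  exact Finset.sum_congr rfl (fun c _ => (N_mul_FN (β c) hN).symm)

theorem EL_le_univ [Fintype K] [DecidableEq K] (β : K → ℝ) (hN : 0 < N) {E : Finset (Cfg K N)}
    (hE : E.Nonempty) :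
    EL E (vH β N) (fun _ => 0) ≤ N * ∑ c, FN (β c) N := by
  rw [← EL_univ β hN]
  exact (EL_le_of_ZE_le β β hE (fun x => ZE_mono β (Finset.subset_univ _) x)).2

/-! ### Overlaps -/

theorem sg_mul_self (b : Bool) : sg b * sg b = 1 := by
  unfold sg
  cases b <;> simp

theorem abs_sg (b : Bool) : |sg b| = 1 := by
  unfold sg
  cases b <;> simp

theorem ov_self (ρ : Cfg K N) (hN : 0 < N) (c : K) : ov ρ ρ c c = 1 := by
  have hN0 : (N : ℝ) ≠ 0 := by exact_mod_cast hN.ne'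
  unfold ov
  simp only [sg_mul_self]
  simp [hN0]

theorem ov_symm (ρ ρ' : Cfg K N) (c c' : K) : ov ρ ρ' c c' = ov ρ' ρ c' c := by
  unfold ov
  congr 1
  exact Finset.sum_congr rfl (fun i _ => mul_comm _ _)

theorem abs_ov_le (ρ ρ' : Cfg K N) (c c' : K) : |ov ρ ρ' c c'| ≤ 1 := by
  unfold ov
  rw [abs_div, Nat.abs_cast]
  rcases Nat.eq_zero_or_pos N with h | h
  · subst h; simp
  · have hN : (0 : ℝ) < N := by exact_mod_cast h
    rw [div_le_one hN]
    refine (Finset.abs_sum_le_sum_abs _ _).trans ?_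
    have h1 : ∀ i : Fin N, |sg (ρ i c) * sg (ρ' i c')| = 1 := fun i => by
      rw [abs_mul, abs_sg, abs_sg, one_mul]
    simp only [h1]
    simp

theorem mem_near [Fintype K] (D : Matrix K K ℝ) (ε : ℝ) (ρ : Cfg K N) :
    ρ ∈ near (N := N) D ε ↔ ∀ c c', |ov ρ ρ c c' - D c c'| ≤ ε := by
  classical
  unfold near
  simp

/-- Gram property of the overlap matrix: it is positive semidefinite -/
theorem ov_psd [Fintype K] (ρ : Cfg K N) (w : K → ℝ) :
    0 ≤ ∑ c, ∑ c', w c * w c' * ov ρ ρ c c' := by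
  have h : ∑ c, ∑ c', w c * w c' * ov ρ ρ c c' =
      (∑ i, (∑ c, w c * sg (ρ i c)) ^ 2) / N := by
    have h1 : ∀ i : Fin N, (∑ c, w c * sg (ρ i c)) ^ 2 =
        ∑ c, ∑ c', w c * w c' * (sg (ρ i c) * sg (ρ i c')) := by
      intro i
      rw [sq, Finset.sum_mul_sum]
      exact Finset.sum_congr rfl (fun c _ => Finset.sum_congr rfl (fun c' _ => by ring))
    have h2 : ∑ i, (∑ c, w c * sg (ρ i c)) ^ 2 =
        ∑ i, ∑ c, ∑ c', w c * w c' * (sg (ρ i c) * sg (ρ i c')) :=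
      Finset.sum_congr rfl (fun i _ => h1 i)
    have h3 : ∑ i, ∑ c, ∑ c', w c * w c' * (sg (ρ i c) * sg (ρ i c')) =
        ∑ c, ∑ c', ∑ i, w c * w c' * (sg (ρ i c) * sg (ρ i c')) := by
      rw [Finset.sum_comm]
      exact Finset.sum_congr rfl (fun c _ => Finset.sum_comm)
    rw [h2, h3, Finset.sum_div]
    refine Finset.sum_congr rfl (fun c _ => ?_)
    rw [Finset.sum_div]
    refine Finset.sum_congr rfl (fun c' _ => ?_)
    unfold ov
    rw [← Finset.mul_sum, mul_div_assoc]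
  rw [h]
  positivity

/-- C1: bound of the covariance -/
theorem dot_vH_self_le [Fintype K] (β : K → ℝ) (hβ : ∀ c, 0 ≤ β c) (hN : 0 < N) (ρ : Cfg K N) :
    dot (vH β N ρ) (vH β N ρ) ≤ N * (∑ c, β c) ^ 2 := by
  have hN' : (0 : ℝ) < N := by exact_mod_cast hN
  have hs : 0 < Real.sqrt N := Real.sqrt_pos.2 hN'
  have h1 : ∀ p : Fin N × Fin N, vH β N ρ p * vH β N ρ p ≤ (∑ c, β c) ^ 2 / N := by
    intro p
    have h2 : |∑ c, β c * (sg (ρ p.1 c) * sg (ρ p.2 c))| ≤ ∑ c, β c := by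
      refine (Finset.abs_sum_le_sum_abs _ _).trans (Finset.sum_le_sum (fun c _ => ?_))
      rw [abs_mul, abs_mul, abs_sg, abs_sg, abs_of_nonneg (hβ c)]
      simp
    unfold vH
    rw [div_mul_div_comm, Real.mul_self_sqrt hN'.le]
    gcongr
    rw [← sq]
    exact sq_le_sq' (by linarith [neg_abs_le (∑ c, β c * (sg (ρ p.1 c) * sg (ρ p.2 c)))])
      ((le_abs_self _).trans h2)
  unfold dot
  refine (Finset.sum_le_sum (fun p _ => h1 p)).trans (le_of_eq ?_)
  rw [Finset.sum_const, Finset.card_univ, Fintype.card_prod, Fintype.card_fin, nsmul_eq_mul]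
  push_cast
  field_simp

end SKC.C
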