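import Mathlib

/-!
# Part C, module Jen: the blow-up inequality (C5)

`P(E^(k)) ≥ P(E)^(k^|K|)` for product measures: Jensen variable by variable.
-/

set_option autoImplicit false

namespace SKC.C

/-- sums over functions on `Fin (m+1)` -/
theorem Jen_sum_cons {X M : Type*} [Fintype X] [AddCommMonoid M] (m : ℕ)
    (F : (Fin (m + 1) → X) → M) :
    ∑ y : Fin (m + 1) → X, F y = ∑ s : X, ∑ z : Fin m → X, F (Fin.cons s z) := by
  rw [← Fintype.sum_prod_type (f := fun q : X × (Fin m → X) => F (Fin.cons q.1 q.2))]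
  exact (Equiv.sum_comp (Fin.consEquiv (fun _ => X)) F).symm

theorem Jen_prod_cons {X M : Type*} [Fintype X] [CommMonoid M] (m : ℕ)
    (F : (Fin (m + 1) → X) → M) :
    ∏ y : Fin (m + 1) → X, F y = ∏ s : X, ∏ z : Fin m → X, F (Fin.cons s z) := by
  rw [← Fintype.prod_prod_type (f := fun q : X × (Fin m → X) => F (Fin.cons q.1 q.2))]
  exact (Equiv.prod_comp (Fin.consEquiv (fun _ => X)) F).symm

/-- splitting off the first row -/
def Jen_eq (X : Type*) (m k : ℕ) :
    (Fin k → X) × (Fin m × Fin k → X) ≃ (Fin (m + 1) × Fin k → X) where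
  toFun q := fun p => (Fin.cons (q.1 p.2) (fun c => q.2 (c, p.2)) : Fin (m + 1) → X) p.1
  invFun Y := (fun j => Y (0, j), fun p => Y (p.1.succ, p.2))
  left_inv q := rfl
  right_inv Y := by
    funext p
    obtain ⟨c, j⟩ := p
    refine Fin.cases ?_ (fun i => ?_) c
    · rfl
    · rfl

theorem Jen_sum_rows {X : Type*} [Fintype X] (m k : ℕ)
    (F : (Fin (m + 1) × Fin k → X) → ℝ) :
    ∑ Y, F Y = ∑ y0 : Fin k → X, ∑ Z : Fin m × Fin k → X, F (Jen_eq X m k (y0, Z)) := by
  rw [← Fintype.sum_prod_type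
    (f := fun q : (Fin k → X) × (Fin m × Fin k → X) => F (Jen_eq X m k q))]
  exact (Equiv.sum_comp (Jen_eq X m k) F).symm

theorem Jen_sum_prod {X : Type*} [Fintype X] (m : ℕ) (w : Fin m → X → ℝ)
    (hw1 : ∀ c, ∑ s, w c s = 1) : ∑ z : Fin m → X, ∏ c, w c (z c) = 1 := by
  classical
  have h := Finset.prod_univ_sum (fun _ : Fin m => (Finset.univ : Finset X)) w
  rw [Fintype.piFinset_univ] at h
  rw [← h]
  exact Finset.prod_eq_one fun c _ => hw1 c

/-- blow-up inequality for `K = Fin m`.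
Proof: induction on `m`. `m = 0`: both sides are `f default` (the exponent is `k^0 = 1`; there is exactly
one function `Fin 0 → Fin k`).
Step `m → m+1`: split off the coordinate `0`: `y = Fin.cons s z`, `Y = (y0, Z)` with `y0 : Fin k → X`,
`Z : Fin m × Fin k → X`, `a = Fin.cons a0 a'`. For fixed `y0` the induction hypothesis for
`g z = ∏ a0 : Fin k, f (Fin.cons (y0 a0) z)` gives
`∑_Z (∏ w) ∏_{a'} ∏_{a0} f (cons (y0 a0) (Z a')) ≥ (∑_z (∏ w) ∏_{a0} f (cons (y0 a0) z))^(k^m)`.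
Multiply by `∏_j w 0 (y0 j)` and sum over `y0` (these weights have sum `1`): by
`Real.pow_arith_mean_le_arith_mean_pow` the sum is at least
`(∑_{y0} (∏_j w 0 (y0 j)) ∑_z (∏ w) ∏_{a0} f (cons (y0 a0) z))^(k^m)
   = (∑_z (∏ w) (∑_s w 0 s f (cons s z))^k)^(k^m)`   (`Finset.prod_univ_sum`)
` ≥ ((∑_z (∏ w) ∑_s w 0 s f (cons s z))^k)^(k^m)`, again by Jensen. -/
theorem blow_ineq_fin {X : Type} [Fintype X] (m k : ℕ) (w : Fin m → X → ℝ)
    (hw : ∀ c s, 0 ≤ w c s) (hw1 : ∀ c, ∑ s, w c s = 1) (f : (Fin m → X) → ℝ)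
    (hf : ∀ y, 0 ≤ f y) :
    (∑ y : Fin m → X, (∏ c, w c (y c)) * f y) ^ (k ^ m) ≤
      ∑ Y : Fin m × Fin k → X, (∏ p, w p.1 (Y p)) * ∏ a : Fin m → Fin k, f (fun c => Y (c, a c)) := by
  classical
  induction m with
  | zero =>
    have h1 : ∀ y : Fin 0 → X, f y = f default := fun y => by rw [Subsingleton.elim y default]
    simp [h1]
  | succ m ih =>
    set W : (Fin m → X) → ℝ := fun z => ∏ c, w c.succ (z c) with hW
    set W0 : (Fin k → X) → ℝ := fun y0 => ∏ j, w 0 (y0 j) with hW0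
    have hWn : ∀ z, 0 ≤ W z := fun z => Finset.prod_nonneg fun c _ => hw _ _
    have hW0n : ∀ z, 0 ≤ W0 z := fun z => Finset.prod_nonneg fun c _ => hw _ _
    have hWs : ∑ z, W z = 1 := Jen_sum_prod m (fun c => w c.succ) fun c => hw1 _
    have hW0s : ∑ z, W0 z = 1 := Jen_sum_prod k (fun _ => w 0) fun c => hw1 _
    set G : (Fin m → X) → ℝ := fun z => ∑ s, w 0 s * f (Fin.cons s z) with hG
    have hGn : ∀ z, 0 ≤ G z := fun z => Finset.sum_nonneg fun s _ => mul_nonneg (hw _ _) (hf _)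
    set g : (Fin k → X) → (Fin m → X) → ℝ := fun y0 z => ∏ a0, f (Fin.cons (y0 a0) z) with hg
    have hgn : ∀ y0 z, 0 ≤ g y0 z := fun y0 z => Finset.prod_nonneg fun c _ => hf _
    have hL : ∑ y : Fin (m + 1) → X, (∏ c, w c (y c)) * f y = ∑ z, W z * G z := by
      rw [Jen_sum_cons, Finset.sum_comm]
      refine Finset.sum_congr rfl fun z _ => ?_
      rw [hG, Finset.mul_sum]
      refine Finset.sum_congr rfl fun s _ => ?_
      rw [Fin.prod_univ_succ, Fin.cons_zero]
      simp only [Fin.cons_succ]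
      ring
    have hR : ∑ Y : Fin (m + 1) × Fin k → X, (∏ p, w p.1 (Y p)) *
        ∏ a : Fin (m + 1) → Fin k, f (fun c => Y (c, a c)) =
        ∑ y0, W0 y0 * ∑ Z : Fin m × Fin k → X, (∏ p, w p.1.succ (Z p)) *
          ∏ a : Fin m → Fin k, g y0 (fun c => Z (c, a c)) := by
      rw [Jen_sum_rows]
      refine Finset.sum_congr rfl fun y0 _ => ?_
      rw [Finset.mul_sum]
      refine Finset.sum_congr rfl fun Z _ => ?_
      have e1 : ∏ p : Fin (m + 1) × Fin k, w p.1 (Jen_eq X m k (y0, Z) p) =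
          W0 y0 * ∏ p : Fin m × Fin k, w p.1.succ (Z p) := by
        rw [Fintype.prod_prod_type, Fin.prod_univ_succ, Fintype.prod_prod_type]
        rfl
      have e2 : ∏ a : Fin (m + 1) → Fin k, f (fun c => Jen_eq X m k (y0, Z) (c, a c)) =
          ∏ a : Fin m → Fin k, g y0 (fun c => Z (c, a c)) := by
        rw [Jen_prod_cons, Finset.prod_comm]
        refine Finset.prod_congr rfl fun a _ => Finset.prod_congr rfl fun a0 _ => ?_
        congr 1
        funext c
        refine Fin.cases ?_ (fun i => ?_) c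
        · rfl
        · rfl
      rw [e1, e2, mul_assoc]
    rw [hL, hR]
    have h1 : ∀ y0, (∑ z, W z * g y0 z) ^ (k ^ m) ≤
        ∑ Z : Fin m × Fin k → X, (∏ p, w p.1.succ (Z p)) *
          ∏ a : Fin m → Fin k, g y0 (fun c => Z (c, a c)) := fun y0 =>
      ih (fun c => w c.succ) (fun c s => hw _ _) (fun c => hw1 _) (g y0) (hgn y0)
    have h2 : (∑ y0, W0 y0 * ∑ z, W z * g y0 z) ^ (k ^ m) ≤
        ∑ y0, W0 y0 * (∑ z, W z * g y0 z) ^ (k ^ m) :=
      Real.pow_arith_mean_le_arith_mean_pow _ _ _ (fun y0 _ => hW0n y0) hW0s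
        (fun y0 _ => Finset.sum_nonneg fun z _ => mul_nonneg (hWn z) (hgn y0 z)) _
    have h3 : ∑ y0, W0 y0 * ∑ z, W z * g y0 z = ∑ z, W z * G z ^ k := by
      have e1 : ∀ y0, W0 y0 * ∑ z, W z * g y0 z = ∑ z, W z * (W0 y0 * g y0 z) := by
        intro y0
        rw [Finset.mul_sum]
        exact Finset.sum_congr rfl fun z _ => by ring
      rw [Finset.sum_congr rfl fun y0 _ => e1 y0, Finset.sum_comm]
      refine Finset.sum_congr rfl fun z _ => ?_
      rw [← Finset.mul_sum]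
      congr 1
      rw [hG, Fintype.sum_pow]
      refine Finset.sum_congr rfl fun y0 _ => ?_
      exact Finset.prod_mul_distrib.symm
    have h4 : (∑ z, W z * G z) ^ k ≤ ∑ z, W z * G z ^ k :=
      Real.pow_arith_mean_le_arith_mean_pow _ _ _ (fun z _ => hWn z) hWs (fun z _ => hGn z) _
    have h5 : 0 ≤ ∑ z, W z * G z := Finset.sum_nonneg fun z _ => mul_nonneg (hWn z) (hGn z)
    calc (∑ z, W z * G z) ^ (k ^ (m + 1)) = ((∑ z, W z * G z) ^ k) ^ (k ^ m) := by
          rw [← pow_mul, pow_succ, mul_comm (k ^ m) k]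
      _ ≤ (∑ z, W z * G z ^ k) ^ (k ^ m) := pow_le_pow_left₀ (pow_nonneg h5 _) h4 _
      _ = (∑ y0, W0 y0 * ∑ z, W z * g y0 z) ^ (k ^ m) := by rw [h3]
      _ ≤ ∑ y0, W0 y0 * (∑ z, W z * g y0 z) ^ (k ^ m) := h2
      _ ≤ _ := Finset.sum_le_sum fun y0 _ => mul_le_mul_of_nonneg_left (h1 y0) (hW0n y0)

/-- blow-up inequality. Proof: transport `blow_ineq_fin` along `Fintype.equivFin K`. -/
theorem blow_ineq {K X : Type} [Fintype K] [DecidableEq K] [Fintype X] (k : ℕ) (w : K → X → ℝ)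
    (hw : ∀ c s, 0 ≤ w c s) (hw1 : ∀ c, ∑ s, w c s = 1) (f : (K → X) → ℝ)
    (hf : ∀ y, 0 ≤ f y) :
    (∑ y : K → X, (∏ c, w c (y c)) * f y) ^ (k ^ Fintype.card K) ≤
      ∑ Y : K × Fin k → X, (∏ p, w p.1 (Y p)) * ∏ a : K → Fin k, f (fun c => Y (c, a c)) := by
  classical
  set e := Fintype.equivFin K with he
  have h := blow_ineq_fin (Fintype.card K) k (fun c => w (e.symm c)) (fun c s => hw _ _)
    (fun c => hw1 _) (fun y => f (fun c => y (e c))) (fun y => hf _)
  have hL : ∑ y : Fin (Fintype.card K) → X, (∏ c, w (e.symm c) (y c)) * f (fun c => y (e c)) =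
      ∑ y : K → X, (∏ c, w c (y c)) * f y := by
    rw [← Equiv.sum_comp (e.arrowCongr (Equiv.refl X))]
    refine Finset.sum_congr rfl fun y _ => ?_
    have e1 : ∏ c, w (e.symm c) ((e.arrowCongr (Equiv.refl X)) y c) = ∏ c, w c (y c) :=
      Equiv.prod_comp e.symm (fun c => w c (y c))
    have e2 : (fun c => (e.arrowCongr (Equiv.refl X)) y (e c)) = y := by
      funext c
      show y (e.symm (e c)) = y c
      rw [Equiv.symm_apply_apply]
    rw [e1, e2]
  have hR : ∑ Y : Fin (Fintype.card K) × Fin k → X, (∏ p, w (e.symm p.1) (Y p)) *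
      ∏ a : Fin (Fintype.card K) → Fin k, f (fun c => Y (e c, a (e c))) =
      ∑ Y : K × Fin k → X, (∏ p, w p.1 (Y p)) * ∏ a : K → Fin k, f (fun c => Y (c, a c)) := by
    rw [← Equiv.sum_comp ((e.prodCongr (Equiv.refl (Fin k))).arrowCongr (Equiv.refl X))]
    refine Finset.sum_congr rfl fun Y _ => ?_
    have e1 : ∏ p, w (e.symm p.1)
        (((e.prodCongr (Equiv.refl (Fin k))).arrowCongr (Equiv.refl X)) Y p) =
        ∏ p, w p.1 (Y p) :=
      Equiv.prod_comp (e.prodCongr (Equiv.refl (Fin k))).symm (fun p => w p.1 (Y p))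
    have e2 : ∏ a : Fin (Fintype.card K) → Fin k,
        f (fun c => ((e.prodCongr (Equiv.refl (Fin k))).arrowCongr (Equiv.refl X)) Y
          (e c, a (e c))) = ∏ a : K → Fin k, f (fun c => Y (c, a c)) := by
      rw [← Equiv.prod_comp (e.arrowCongr (Equiv.refl (Fin k)))]
      refine Finset.prod_congr rfl fun a _ => ?_
      congr 1
      funext c
      show Y (e.symm (e c), a (e.symm (e c))) = Y (c, a c)
      rw [Equiv.symm_apply_apply]
    rw [e1, e2]
  rw [hL, hR] at h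
  exact h

end SKC.C
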