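import Pool.Agent.H.MP_08eaf3_pr.C.FullK
import Pool.Agent.H.MP_08eaf3_pr.C.Jen

/-!
# Part C: blow-up of full families (C5)
-/

set_option autoImplicit false

open MeasureTheory ProbabilityTheory Filter Topology Matrix

namespace SKC.C

variable {K : Type} {N : ℕ}

/-- the blow-up of `E`: every choice of one copy for each coordinate is in `E` -/
noncomputable def blow [Fintype K] (E : Finset (Cfg K N)) (k : ℕ) : Finset (Cfg (K × Fin k) N) := by
  classical
  exact Finset.univ.filter (fun ρ => ∀ a : K → Fin k, res (fun c => (c, a c)) ρ ∈ E)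

theorem mem_blow [Fintype K] (E : Finset (Cfg K N)) (k : ℕ) (ρ : Cfg (K × Fin k) N) :
    ρ ∈ blow E k ↔ ∀ a : K → Fin k, res (fun c => (c, a c)) ρ ∈ E := by
  classical
  unfold blow
  simp

theorem sum_normalised [Fintype K] [DecidableEq K] (β : K → ℝ) (E : Finset (Cfg K N))
    (x : Fin N × Fin N → ℝ) (f : (K → (Fin N → Bool)) → ℝ)
    (hf : ∀ ρ : Cfg K N, f (row ρ) = if ρ ∈ E then 1 else 0) :
    ∑ y : K → (Fin N → Bool), (∏ c, wt (β c) x (y c) / Z1 (β c) x) * f y =
      ZE β E x / ∏ c, Z1 (β c) x := by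
  have h1 : ∑ y : K → (Fin N → Bool), (∏ c, wt (β c) x (y c) / Z1 (β c) x) * f y =
      ∑ ρ : Cfg K N, (∏ c, wt (β c) x (row ρ c) / Z1 (β c) x) * f (row ρ) :=
    (Fintype.sum_equiv (Equiv.piComm (fun (_ : Fin N) (_ : K) => Bool)) _ _ (fun ρ => rfl)).symm
  rw [h1, ZE_eq, Finset.sum_div]
  have h2 : ∀ ρ : Cfg K N, (∏ c, wt (β c) x (row ρ c) / Z1 (β c) x) * f (row ρ) =
      if ρ ∈ E then (∏ c, wt (β c) x (row ρ c)) / ∏ c, Z1 (β c) x else 0 := by
    intro ρ
    rw [hf, Finset.prod_div_distrib]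
    split_ifs <;> simp
  rw [Finset.sum_congr rfl (fun ρ _ => h2 ρ), Finset.sum_ite_mem, Finset.univ_inter]

/-- the blow-up inequality for partition functions -/
theorem ZE_blow [Fintype K] (β : K → ℝ) (E : Finset (Cfg K N)) (k : ℕ) (x : Fin N × Fin N → ℝ) :
    (ZE β E x / ∏ c, Z1 (β c) x) ^ (k ^ Fintype.card K) ≤
      ZE (fun p : K × Fin k => β p.1) (blow E k) x / (∏ c, Z1 (β c) x) ^ k := by
  classical
  have h := blow_ineq k (fun (c : K) (s : Fin N → Bool) => wt (β c) x s / Z1 (β c) x)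
    (fun c s => (div_pos (wt_pos _ _ _) (Z1_pos _ _)).le)
    (fun c => by
      rw [← Finset.sum_div]
      exact div_self (Z1_pos _ _).ne')
    (fun y => if (fun i c => y c i : Cfg K N) ∈ E then 1 else 0)
    (fun y => by split_ifs <;> norm_num)
  rw [sum_normalised β E x _ (fun ρ => rfl)] at h
  rw [sum_normalised (fun p : K × Fin k => β p.1) (blow E k) x _ (fun ρ => by
    by_cases hρ : ρ ∈ blow E k
    · rw [if_pos hρ]
      refine Finset.prod_eq_one (fun a _ => ?_)
      exact if_pos ((mem_blow E k ρ).1 hρ a)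
    · rw [if_neg hρ]
      rw [mem_blow] at hρ
      push Not at hρ
      obtain ⟨a, ha⟩ := hρ
      exact Finset.prod_eq_zero (Finset.mem_univ a) (if_neg ha))] at h
  have h3 : ∏ p : K × Fin k, Z1 (β p.1) x = (∏ c, Z1 (β c) x) ^ k := by
    rw [Fintype.prod_prod_type]
    simp [Finset.prod_pow]
  rw [h3] at h
  exact h

theorem EL_blow [Fintype K] (β : K → ℝ) {E : Finset (Cfg K N)} (hE : E.Nonempty) (k : ℕ)
    (hN : 0 < N) :
    (blow E k).Nonempty ∧
    (k ^ Fintype.card K : ℝ) * (EL E (vH β N) (fun _ => 0) - N * ∑ c, FN (β c) N) +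
      k * (N * ∑ c, FN (β c) N) ≤
      EL (blow E k) (vH (fun p : K × Fin k => β p.1) N) (fun _ => 0) := by
  classical
  have hZ : ∀ x : Fin N × Fin N → ℝ, 0 < ∏ c, Z1 (β c) x :=
    fun x => Finset.prod_pos (fun c _ => Z1_pos _ x)
  have hne : (blow E k).Nonempty := by
    rw [Finset.nonempty_iff_ne_empty]
    intro h0
    have h1 := ZE_blow β E k 0
    rw [h0] at h1
    have h2 : ZE (fun p : K × Fin k => β p.1) (∅ : Finset (Cfg (K × Fin k) N)) 0 = 0 := by
      unfold ZE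
      exact Finset.sum_empty
    rw [h2, zero_div] at h1
    have h3 : 0 < (ZE β E 0 / ∏ c, Z1 (β c) (0 : Fin N × Fin N → ℝ)) ^ (k ^ Fintype.card K) :=
      pow_pos (div_pos (ZE_pos β hE 0) (hZ 0)) _
    linarith
  refine ⟨hne, ?_⟩
  have hpt : ∀ x : Fin N × Fin N → ℝ, (k ^ Fintype.card K : ℝ) *
      (Real.log (ZE β E x) - ∑ c, Real.log (Z1 (β c) x)) + k * ∑ c, Real.log (Z1 (β c) x) ≤
      Real.log (ZE (fun p : K × Fin k => β p.1) (blow E k) x) := by
    intro x
    have h1 := Real.log_le_log (pow_pos (div_pos (ZE_pos β hE x) (hZ x)) _) (ZE_blow β E k x)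
    rw [Real.log_pow, Real.log_div (ZE_pos β hE x).ne' (hZ x).ne',
      Real.log_div (ZE_pos _ hne x).ne' (pow_pos (hZ x) _).ne', Real.log_pow,
      Real.log_prod (fun c _ => (Z1_pos _ x).ne')] at h1
    push_cast at h1
    linarith
  have hi1 : Integrable (fun x : Fin N × Fin N → ℝ => ∑ c, Real.log (Z1 (β c) x))
      (gam (Fin N × Fin N)) := integrable_finsetSum _ (fun c _ => integrable_log_Z1 _)
  have hs : ∫ x : Fin N × Fin N → ℝ, ∑ c, Real.log (Z1 (β c) x) ∂(gam (Fin N × Fin N)) =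
      N * ∑ c, FN (β c) N := by
    rw [integral_finsetSum _ (fun c _ => integrable_log_Z1 _), Finset.mul_sum]
    exact Finset.sum_congr rfl (fun c _ => (N_mul_FN _ hN).symm)
  have hi2 : Integrable (fun x : Fin N × Fin N → ℝ => (k ^ Fintype.card K : ℝ) *
      (Real.log (ZE β E x) - ∑ c, Real.log (Z1 (β c) x))) (gam (Fin N × Fin N)) :=
    ((integrable_log_ZE β hE).sub hi1).const_mul _
  have hi3 : Integrable (fun x : Fin N × Fin N → ℝ => (k : ℝ) * ∑ c, Real.log (Z1 (β c) x))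
      (gam (Fin N × Fin N)) := hi1.const_mul _
  rw [EL_eq, EL_eq, ← hs, ← integral_sub (integrable_log_ZE β hE) hi1, ← integral_const_mul,
    ← integral_const_mul, ← integral_add hi2 hi3]
  exact integral_mono (hi2.add hi3) (integrable_log_ZE _ hne) hpt

/-- the blow-up of a full family is full -/
theorem FullK.blow [Fintype K] {β : K → ℝ} (hβ : ∀ c, 0 ≤ β c)
    {E : ∀ N : ℕ, Finset (Cfg K N)} (h : FullK β E) (k : ℕ) :
    FullK (fun p : K × Fin k => β p.1) (fun N => SKC.C.blow (E N) k) := by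
  classical
  have hs : ∑ p : K × Fin k, Fo (β p.1) = k * ∑ c, Fo (β c) := by
    rw [Fintype.sum_prod_type]
    simp [Finset.mul_sum]
  set A : ℝ := (k ^ Fintype.card K : ℝ) with hA
  have hA0 : 0 ≤ A := by positivity
  refine h.of_le (fun δ hδ => ⟨δ / (A + k + 1), by positivity,
    (eventually_gt_atTop 0).mono (fun N hN h1 h2 => ?_)⟩)
  have hN' : (0 : ℝ) < N := by exact_mod_cast hN
  obtain ⟨h3, h4⟩ := EL_blow β h1 k hN
  refine ⟨h3, ?_⟩
  rw [hs, le_div_iff₀ hN']
  rw [le_div_iff₀ hN'] at h2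
  refine le_trans ?_ h4
  set δ' := δ / (A + k + 1) with hδ'
  have hδ'0 : 0 < δ' := by positivity
  have h5 : δ' * (A + k + 1) = δ := div_mul_cancel₀ _ (by positivity)
  have h6 : ∑ c, FN (β c) N ≤ ∑ c, Fo (β c) :=
    Finset.sum_le_sum (fun c _ => FN_le_Fo _ (hβ _) hN)
  have h7 := EL_le_univ β hN h1
  set S := ∑ c, FN (β c) N
  set F := ∑ c, Fo (β c)
  set L := EL (E N) (vH β N) (fun _ => 0)
  have h8 : -(δ' * N) ≤ L - N * S := by nlinarith
  have h9 : (F - δ') * N ≤ N * S := h2.trans h7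
  have h10 : -(A * (δ' * N)) ≤ A * (L - N * S) := by nlinarith
  have h11 : (k : ℝ) * ((F - δ') * N) ≤ k * (N * S) :=
    mul_le_mul_of_nonneg_left h9 (Nat.cast_nonneg k)
  have h12 : (k * F - δ) * N = k * ((F - δ') * N) - A * (δ' * N) - δ' * N := by
    rw [← h5]; ring
  have h13 : 0 ≤ δ' * N := by positivity
  rw [h12]
  linarith

end SKC.C
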