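import Mathlib
import Pool.Agent.H.MP_e6b4fa_co.Ramsey

/-!
# Part C: Ramsey, pigeonhole, grid
-/

set_option autoImplicit false

namespace SKC.C

/-- homogeneous blocks of the same colour -/
theorem comb (C : Type) [Fintype C] [DecidableEq C] [Nonempty C] (n k : ℕ) :
    ∃ n0 k0 : ℕ, 0 < n0 ∧ ∀ f : Fin n0 → Fin k0 → Fin k0 → C, (∀ a x y, f a x y = f a y x) →
      ∃ (e : Fin n → Fin n0) (S : Fin n → Fin k → Fin k0) (c : C), Function.Injective e ∧
        (∀ a, Function.Injective (S a)) ∧ ∀ a x y, x ≠ y → f (e a) (S a x) (S a y) = c := by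
  obtain ⟨R, hR⟩ := Pool.Agent.H.MP_e6b4fa_co.ramsey C k
  refine ⟨Fintype.card C * n + 1, R, Nat.succ_pos _, fun f hf => ?_⟩
  have h1 : ∀ a, ∃ (S : Fin k → Fin R) (c : C), Function.Injective S ∧
      ∀ x y, x ≠ y → f a (S x) (S y) = c := by
    intro a
    obtain ⟨S, c, h2, -, h3⟩ := hR (Finset.univ : Finset (Fin R)) (f a) (hf a) (by simp)
    exact ⟨S, c, h2, h3⟩
  choose S c hS hc using h1
  obtain ⟨c0, -, hc0⟩ := Finset.exists_le_card_fiber_of_mul_le_card_of_maps_to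
    (s := (Finset.univ : Finset (Fin (Fintype.card C * n + 1)))) (t := (Finset.univ : Finset C))
    (f := c) (n := n)
    (fun _ _ => Finset.mem_univ _) Finset.univ_nonempty (by simp)
  obtain ⟨T, hT, hTcard⟩ := Finset.exists_subset_card_eq hc0
  let e : Fin n ≃ T := (T.equivFinOfCardEq hTcard).symm
  refine ⟨fun a => (e a : Fin _), fun a => S (e a), c0, ?_, fun a => hS _, ?_⟩
  · intro a b hab
    exact e.injective (Subtype.ext hab)
  · intro a x y hxy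
    rw [hc _ x y hxy]
    exact (Finset.mem_filter.1 (hT (e a).2)).2

/-- finite grid in `[-1,1]` -/
theorem grid (δ : ℝ) (hδ : 0 < δ) :
    ∃ t : Finset ℝ, (∀ x ∈ t, x ∈ Set.Icc (-1 : ℝ) 1) ∧
      ∀ r ∈ Set.Icc (-1 : ℝ) 1, ∃ x ∈ t, |r - x| ≤ δ := by
  obtain ⟨t, ht, hfin, hcov⟩ := (isCompact_Icc (a := (-1 : ℝ)) (b := 1)).finite_cover_balls hδ
  refine ⟨hfin.toFinset, fun x hx => ht (hfin.mem_toFinset.1 hx), fun r hr => ?_⟩
  obtain ⟨x, hx, hrx⟩ := Set.mem_iUnion₂.1 (hcov hr)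
  refine ⟨x, hfin.mem_toFinset.2 hx, ?_⟩
  rw [Metric.mem_ball, Real.dist_eq] at hrx
  exact hrx.le

end SKC.C
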