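import Pool.Agent.H.MP_08eaf3_pr.C.Split
import Pool.Agent.H.MP_08eaf3_pr.IfA

/-!
# Part C: full families, monotonicity, restriction, colours
-/

set_option autoImplicit false

open MeasureTheory ProbabilityTheory Filter Topology Matrix

namespace SKC.C

variable {K K1 K2 : Type} {N : ℕ}

/-- C1 -/
theorem var_le [Fintype K] (β : K → ℝ) (hβ : ∀ c, 0 ≤ β c) (hN : 0 < N)
    (B : Finset (Cfg K N)) (hB : B.Nonempty) :
    ∫ x, (lse B (fun ρ => dot x (vH β N ρ)) - EL B (vH β N) (fun _ => 0)) ^ 2 ∂(gam (Fin N × Fin N)) ≤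
      N * (∑ c, β c) ^ 2 := by
  have h := var_lse_le B hB (vH β N) (fun _ => 0) (N * (∑ c, β c) ^ 2)
    (fun ρ _ => dot_vH_self_le β hβ hN ρ)
  simp only [add_zero] at h
  exact h

/-- growth bound: `|log Z| ≤ A + ∑ |dot|`, so its square is integrable -/
theorem integrable_sq_log_ZE [Fintype K] (β : K → ℝ) {E : Finset (Cfg K N)} (hE : E.Nonempty) (c : ℝ) :
    Integrable (fun x => (Real.log (ZE β E x) - c) ^ 2) (gam (Fin N × Fin N)) := by
  have hcoord : ∀ i : Fin N × Fin N, MemLp (fun x : Fin N × Fin N → ℝ => x i) 2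
      (gam (Fin N × Fin N)) := by
    intro i
    have h := (measurePreserving_eval (fun _ : Fin N × Fin N => gaussianReal 0 1) i)
    have h2 : MemLp (fun x : ℝ => x) 2 (gaussianReal 0 1) := by
      have h3 := memLp_id_gaussianReal (μ := 0) (v := 1) 2
      exact h3
    exact h2.comp_measurePreserving h
  have hdot : ∀ v : Fin N × Fin N → ℝ, MemLp (fun x : Fin N × Fin N → ℝ => dot x v) 2
      (gam (Fin N × Fin N)) := by
    intro v
    unfold dot
    exact memLp_finsetSum _ (fun i _ => (hcoord i).mul_const _)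
  have hb : MemLp (fun x : Fin N × Fin N → ℝ => (∑ ω ∈ E, |dot x (vH β N ω)|) + Real.log E.card) 2
      (gam (Fin N × Fin N)) :=
    (memLp_finsetSum _ (fun ω _ => (hdot _).abs)).add (memLp_const _)
  have hl : MemLp (fun x : Fin N × Fin N → ℝ => Real.log (ZE β E x)) 2 (gam (Fin N × Fin N)) := by
    refine hb.mono' (integrable_log_ZE β hE).aestronglyMeasurable (Eventually.of_forall fun x => ?_)
    rw [Real.norm_eq_abs]
    exact SKC.I.abs_lse_le hE _
  exact (hl.sub (memLp_const c)).integrable_sq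

/-- the deviation is small in `L¹` -/
theorem abs_dev_le [Fintype K] (β : K → ℝ) (hβ : ∀ c, 0 ≤ β c) (hN : 0 < N)
    {E : Finset (Cfg K N)} (hE : E.Nonempty) :
    ∫ x, |Real.log (ZE β E x) - EL E (vH β N) (fun _ => 0)| ∂(gam (Fin N × Fin N)) ≤
      Real.sqrt N * ((∑ c, β c) ^ 2 + 1) := by
  have hN' : (0 : ℝ) < N := by exact_mod_cast hN
  have hs : 0 < Real.sqrt N := Real.sqrt_pos.2 hN'
  have hss : Real.sqrt N * Real.sqrt N = N := Real.mul_self_sqrt hN'.le
  have h1 : ∀ t : ℝ, |t| ≤ t ^ 2 / Real.sqrt N + Real.sqrt N := by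
    intro t
    have h2 : |t| * Real.sqrt N ≤ t ^ 2 + N := by
      have h3 : (|t| - Real.sqrt N) ^ 2 ≥ 0 := sq_nonneg _
      have h4 : |t| ^ 2 = t ^ 2 := sq_abs t
      nlinarith [abs_nonneg t]
    have h5 : t ^ 2 / Real.sqrt N + Real.sqrt N = (t ^ 2 + N) / Real.sqrt N := by
      rw [add_div]
      congr 1
      rw [eq_div_iff hs.ne', hss]
    rw [h5, le_div_iff₀ hs]
    exact h2
  set m := EL E (vH β N) (fun _ => 0) with hm
  have hi := integrable_sq_log_ZE β hE m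
  calc ∫ x, |Real.log (ZE β E x) - m| ∂(gam (Fin N × Fin N))
      ≤ ∫ x, ((Real.log (ZE β E x) - m) ^ 2 / Real.sqrt N + Real.sqrt N)
        ∂(gam (Fin N × Fin N)) := by
        refine integral_mono ((integrable_log_ZE β hE).sub (integrable_const _)).abs
          ((hi.div_const _).add (integrable_const _)) (fun x => h1 _)
    _ = (∫ x, (Real.log (ZE β E x) - m) ^ 2 ∂(gam (Fin N × Fin N))) / Real.sqrt N +
        Real.sqrt N := by
        rw [integral_add (hi.div_const _) (integrable_const _), integral_div]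
        simp
    _ ≤ (N * (∑ c, β c) ^ 2) / Real.sqrt N + Real.sqrt N := by
        have := var_le β hβ hN E hE
        gcongr
        exact this
    _ = Real.sqrt N * ((∑ c, β c) ^ 2 + 1) := by
        have h6 : (N : ℝ) * (∑ c, β c) ^ 2 / Real.sqrt N = Real.sqrt N * (∑ c, β c) ^ 2 := by
          rw [div_eq_iff hs.ne']
          nlinarith [hss]
        rw [h6]
        ring

/-- full families for a general index set -/
def FullK [Fintype K] (β : K → ℝ) (E : ∀ N : ℕ, Finset (Cfg K N)) : Prop :=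
  ∀ δ : ℝ, 0 < δ → ∃ᶠ N : ℕ in atTop, (E N).Nonempty ∧
    (∑ c, Fo (β c)) - δ ≤ EL (E N) (vH β N) (fun _ => 0) / N

theorem full_iff {J : Type} [Fintype J] (b1 b2 : ℝ) (E : ∀ N : ℕ, Finset (Cfg (J × Fin 2) N)) :
    Full b1 b2 E ↔ FullK (beN b1 b2 J) E := by
  have h : ∑ c : J × Fin 2, Fo (beN b1 b2 J c) = (Fintype.card J : ℝ) * (Fo b1 + Fo b2) := by
    rw [Fintype.sum_prod_type]
    simp [beN, be, Fin.sum_univ_two]
    ring
  unfold Full FullK
  rw [h]

/-- comparison of families: if for large `N` the free energy of `E'` is at least that of `E` up to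
`a + small`, then fullness is inherited -/
theorem FullK.of_le [Fintype K] [Fintype K1] {β : K → ℝ} {β' : K1 → ℝ}
    {E : ∀ N : ℕ, Finset (Cfg K N)} {E' : ∀ N : ℕ, Finset (Cfg K1 N)} (h : FullK β E)
    (hE : ∀ δ : ℝ, 0 < δ → ∃ δ' : ℝ, 0 < δ' ∧ ∀ᶠ N : ℕ in atTop, (E N).Nonempty →
      (∑ c, Fo (β c)) - δ' ≤ EL (E N) (vH β N) (fun _ => 0) / N → (E' N).Nonempty ∧
        (∑ c, Fo (β' c)) - δ ≤ EL (E' N) (vH β' N) (fun _ => 0) / N) : FullK β' E' := by
  intro δ hδ
  obtain ⟨δ', hδ', h1⟩ := hE δ hδ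
  exact ((h δ' hδ').and_eventually h1).mono (fun N hN => hN.2 hN.1.1 hN.1.2)

theorem FullK.mono [Fintype K] {β : K → ℝ} {E E' : ∀ N : ℕ, Finset (Cfg K N)} (h : FullK β E)
    (hE : ∀ᶠ N : ℕ in atTop, E N ⊆ E' N) : FullK β E' := by
  refine h.of_le (fun δ hδ => ⟨δ, hδ, hE.mono (fun N hN h1 h2 => ?_)⟩)
  obtain ⟨h3, h4⟩ := EL_le_of_ZE_le β β h1 (fun x => ZE_mono β hN x)
  exact ⟨h3, h2.trans (by gcongr)⟩

/-- a map of configurations which preserves the Hamiltonian -/
theorem FullK.map [Fintype K] {β : K → ℝ} {E E' : ∀ N : ℕ, Finset (Cfg K N)} (h : FullK β E)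
    (φ : ∀ N : ℕ, Cfg K N → Cfg K N) (hφ : ∀ N, Function.Injective (φ N))
    (hH : ∀ N ρ, vH β N (φ N ρ) = vH β N ρ)
    (hE : ∀ N, ∀ ρ ∈ E N, φ N ρ ∈ E' N) : FullK β E' := by
  classical
  refine h.of_le (fun δ hδ => ⟨δ, hδ, Eventually.of_forall (fun N h1 h2 => ?_)⟩)
  obtain ⟨h3, h4⟩ := EL_le_of_ZE_le (E' := E' N) β β h1 (fun x => by
    have e1 : ZE β (E N) x = ZE β ((E N).image (φ N)) x := by
      unfold ZE
      rw [Finset.sum_image (fun a _ b _ hab => hφ N hab)]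
      exact Finset.sum_congr rfl (fun ρ _ => by rw [hH])
    rw [e1]
    apply ZE_mono
    intro ρ hρ
    obtain ⟨ρ', hρ', rfl⟩ := Finset.mem_image.1 hρ
    exact hE N ρ' hρ')
  exact ⟨h3, h2.trans (by gcongr)⟩

/-- restriction to some of the coordinates -/
theorem FullK.restrict [Fintype K] [Fintype K1] {β : K → ℝ} (hβ : ∀ c, 0 ≤ β c)
    {E : ∀ N : ℕ, Finset (Cfg K N)} {E1 : ∀ N : ℕ, Finset (Cfg K1 N)} (h : FullK β E)
    (i : K1 → K) (hi : Function.Injective i)
    (hE : ∀ᶠ N : ℕ in atTop, ∀ ρ ∈ E N, res i ρ ∈ E1 N) : FullK (fun c => β (i c)) E1 := by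
  classical
  let e : K1 ⊕ ↥((Set.range i)ᶜ) ≃ K :=
    (Equiv.sumCongr (Equiv.ofInjective i hi) (Equiv.refl _)).trans (Equiv.Set.sumCompl (Set.range i))
  have he1 : ∀ c, e (Sum.inl c) = i c := by
    intro c
    simp [e]
  have hs : ∑ c, Fo (β c) = (∑ c, Fo (β (i c))) + ∑ c : ↥((Set.range i)ᶜ), Fo (β (e (Sum.inr c))) := by
    rw [← Equiv.sum_comp e, Fintype.sum_sum_type]
    simp only [he1]
  refine h.of_le (fun δ hδ => ⟨δ, hδ, (hE.and (eventually_gt_atTop 0)).mono (fun N hN h1 h2 => ?_)⟩)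
  obtain ⟨hN1, hN0⟩ := hN
  have hN' : (0 : ℝ) < N := by exact_mod_cast hN0
  have h3 := EL_split β e hN0 h1 (E1 N) (fun ρ hρ => by
    have : (fun c => e (Sum.inl c)) = i := funext he1
    rw [this]
    exact hN1 ρ hρ)
  simp only [he1] at h3
  refine ⟨?_, ?_⟩
  · obtain ⟨ρ, hρ⟩ := h1
    exact ⟨_, hN1 ρ hρ⟩
  · have h4 : ∑ c : ↥((Set.range i)ᶜ), FN (β (e (Sum.inr c))) N ≤
        ∑ c : ↥((Set.range i)ᶜ), Fo (β (e (Sum.inr c))) :=
      Finset.sum_le_sum (fun c _ => FN_le_Fo _ (hβ _) hN0)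
    rw [hs, le_div_iff₀ hN'] at h2
    rw [le_div_iff₀ hN']
    nlinarith

theorem ZE_cover [Fintype K] (β : K → ℝ) {C : Type} (C' : Finset C) (E : Finset (Cfg K N))
    (G : C → Finset (Cfg K N)) (h : ∀ ρ ∈ E, ∃ c ∈ C', ρ ∈ G c) (x : Fin N × Fin N → ℝ) :
    ZE β E x ≤ ∑ c ∈ C', ZE β (G c) x := by
  classical
  have h1 : ∀ c, ZE β (G c) x = ∑ ρ : Cfg K N, if ρ ∈ G c then Real.exp (dot x (vH β N ρ)) else 0 := by
    intro c
    unfold ZE
    rw [Finset.sum_ite_mem, Finset.univ_inter]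
  have h2 : ∑ c ∈ C', ZE β (G c) x = ∑ ρ : Cfg K N, ∑ c ∈ C',
      if ρ ∈ G c then Real.exp (dot x (vH β N ρ)) else 0 := by
    rw [Finset.sum_comm]
    exact Finset.sum_congr rfl (fun c _ => h1 c)
  have h3 : ZE β E x = ∑ ρ : Cfg K N, if ρ ∈ E then Real.exp (dot x (vH β N ρ)) else 0 := by
    unfold ZE
    rw [Finset.sum_ite_mem, Finset.univ_inter]
  rw [h2, h3]
  refine Finset.sum_le_sum (fun ρ _ => ?_)
  have hnn : ∀ c ∈ C', 0 ≤ if ρ ∈ G c then Real.exp (dot x (vH β N ρ)) else 0 := by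
    intro c _
    split_ifs
    · exact (Real.exp_pos _).le
    · exact le_rfl
  by_cases hρ : ρ ∈ E
  · rw [if_pos hρ]
    obtain ⟨c, hc, hc'⟩ := h ρ hρ
    have h4 := Finset.single_le_sum hnn hc
    rw [if_pos hc'] at h4
    exact h4
  · rw [if_neg hρ]
    exact Finset.sum_nonneg hnn

/-- colours -/
theorem FullK.color [Fintype K] {β : K → ℝ} (hβ : ∀ c, 0 ≤ β c) {C : Type} [Fintype C]
    {E : ∀ N : ℕ, Finset (Cfg K N)} {G : C → ∀ N : ℕ, Finset (Cfg K N)} (h : FullK β E)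
    (hE : ∀ᶠ N : ℕ in atTop, ∀ ρ ∈ E N, ∃ c, ρ ∈ G c N) : ∃ c, FullK β (G c) := by
  classical
  by_contra hcon
  have hcon' : ∀ c, ∃ δ : ℝ, 0 < δ ∧ ∀ᶠ N : ℕ in atTop, ¬ ((G c N).Nonempty ∧
      (∑ c, Fo (β c)) - δ ≤ EL (G c N) (vH β N) (fun _ => 0) / N) := by
    intro c
    by_contra h1
    apply hcon
    refine ⟨c, fun δ hδ => ?_⟩
    by_contra h2
    exact h1 ⟨δ, hδ, by rwa [Filter.not_frequently] at h2⟩
  choose δ hδ hev using hcon'
  have hne : Nonempty C := by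
    obtain ⟨N, hN1, hN2⟩ := ((h 1 one_pos).and_eventually hE).exists
    obtain ⟨ρ, hρ⟩ := hN1.1
    obtain ⟨c, -⟩ := hN2 ρ hρ
    exact ⟨c⟩
  obtain ⟨c0, -, hc0⟩ := Finset.exists_min_image (Finset.univ : Finset C) δ Finset.univ_nonempty
  set d := δ c0 with hd
  have hd0 : 0 < d := hδ c0
  set F := ∑ c, Fo (β c) with hF
  set A := Real.log (Fintype.card C) with hA
  set B := (Fintype.card C : ℝ) * ((∑ c, β c) ^ 2 + 1) with hB
  have hcard : (1 : ℝ) ≤ Fintype.card C := by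
    exact_mod_cast Fintype.card_pos
  have hA0 : 0 ≤ A := Real.log_nonneg hcard
  have hB0 : 0 ≤ B := by positivity
  have hlarge : ∀ᶠ N : ℕ in atTop, A + B * Real.sqrt N < N * (d / 2) := by
    have h1 : Tendsto (fun N : ℕ => Real.sqrt N) atTop atTop :=
      Real.tendsto_sqrt_atTop.comp tendsto_natCast_atTop_atTop
    filter_upwards [h1.eventually_ge_atTop 1, h1.eventually_gt_atTop ((A + B) / (d / 2))]
      with N hN1 hN2
    have h2 : A + B < Real.sqrt N * (d / 2) := by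
      rwa [div_lt_iff₀ (by positivity)] at hN2
    have h3 : Real.sqrt N * Real.sqrt N = N := Real.mul_self_sqrt (Nat.cast_nonneg N)
    have h4 : A + B * Real.sqrt N ≤ (A + B) * Real.sqrt N := by nlinarith
    have h5 : (A + B) * Real.sqrt N < Real.sqrt N * (d / 2) * Real.sqrt N :=
      mul_lt_mul_of_pos_right h2 (by linarith)
    have h6 : Real.sqrt N * (d / 2) * Real.sqrt N = N * (d / 2) := by
      rw [mul_right_comm, h3]
    linarith
  have hall : ∀ᶠ N : ℕ in atTop, ∀ c, ¬ ((G c N).Nonempty ∧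
      F - δ c ≤ EL (G c N) (vH β N) (fun _ => 0) / N) := Filter.eventually_all.2 hev
  obtain ⟨N, hN1, ⟨hN2, hN3⟩, hN4, hN5⟩ := ((h (d / 2) (by positivity)).and_eventually
    ((hE.and hall).and (hlarge.and (eventually_gt_atTop 0)))).exists
  obtain ⟨hEne, hEL⟩ := hN1
  have hN' : (0 : ℝ) < N := by exact_mod_cast hN5
  -- nonempty colours
  let C' : Finset C := Finset.univ.filter (fun c => (G c N).Nonempty)
  have hC' : ∀ c ∈ C', (G c N).Nonempty := fun c hc => (Finset.mem_filter.1 hc).2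
  let D : (Fin N × Fin N → ℝ) → ℝ := fun x =>
    ∑ c ∈ C', |Real.log (ZE β (G c N) x) - EL (G c N) (vH β N) (fun _ => 0)|
  have hsmall : ∀ c ∈ C', EL (G c N) (vH β N) (fun _ => 0) ≤ N * (F - d) := by
    intro c hc
    have h1 := hN3 c
    have h2 : ¬ (F - δ c ≤ EL (G c N) (vH β N) (fun _ => 0) / N) := fun h3 => h1 ⟨hC' c hc, h3⟩
    rw [not_le, div_lt_iff₀ hN'] at h2
    have h3 := hc0 c (Finset.mem_univ c)
    nlinarith
  have hpt : ∀ x, Real.log (ZE β (E N) x) ≤ A + (N * (F - d) + D x) := by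
    intro x
    have h1 : ZE β (E N) x ≤ ∑ c ∈ C', ZE β (G c N) x := by
      refine ZE_cover β C' (E N) (fun c => G c N) (fun ρ hρ => ?_) x
      obtain ⟨c, hc⟩ := hN2 ρ hρ
      exact ⟨c, Finset.mem_filter.2 ⟨Finset.mem_univ _, ⟨ρ, hc⟩⟩, hc⟩
    have h3 : ∀ c ∈ C', ZE β (G c N) x ≤ Real.exp (N * (F - d) + D x) := by
      intro c hc
      have h4 : Real.log (ZE β (G c N) x) ≤ N * (F - d) + D x := by
        have h5 : |Real.log (ZE β (G c N) x) - EL (G c N) (vH β N) (fun _ => 0)| ≤ D x :=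
          Finset.single_le_sum (f := fun c =>
            |Real.log (ZE β (G c N) x) - EL (G c N) (vH β N) (fun _ => 0)|)
            (fun _ _ => abs_nonneg _) hc
        have h6 := le_abs_self (Real.log (ZE β (G c N) x) - EL (G c N) (vH β N) (fun _ => 0))
        have h7 := hsmall c hc
        linarith
      rw [← Real.exp_log (ZE_pos β (hC' c hc) x)]
      exact Real.exp_le_exp.2 h4
    have h4 : ZE β (E N) x ≤ Fintype.card C * Real.exp (N * (F - d) + D x) := by
      refine h1.trans ((Finset.sum_le_sum h3).trans ?_)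
      rw [Finset.sum_const, nsmul_eq_mul]
      gcongr
      exact Finset.card_le_univ _
    have h5 := Real.log_le_log (ZE_pos β hEne x) h4
    rw [Real.log_mul (by positivity) (Real.exp_pos _).ne', Real.log_exp] at h5
    exact h5
  have hDi : Integrable D (gam (Fin N × Fin N)) :=
    integrable_finsetSum _ (fun c hc =>
      ((integrable_log_ZE β (hC' c hc)).sub (integrable_const _)).abs)
  have hDle : ∫ x, D x ∂(gam (Fin N × Fin N)) ≤ B * Real.sqrt N := by
    have h5 : ∫ x, D x ∂(gam (Fin N × Fin N)) = ∑ c ∈ C',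
        ∫ x, |Real.log (ZE β (G c N) x) - EL (G c N) (vH β N) (fun _ => 0)|
          ∂(gam (Fin N × Fin N)) :=
      integral_finsetSum _ (fun c hc =>
        ((integrable_log_ZE β (hC' c hc)).sub (integrable_const _)).abs)
    rw [h5]
    refine (Finset.sum_le_sum (fun c hc => abs_dev_le β hβ hN5 (hC' c hc))).trans ?_
    rw [Finset.sum_const, nsmul_eq_mul, hB]
    have h6 : (C'.card : ℝ) ≤ Fintype.card C := by exact_mod_cast Finset.card_le_univ C'
    have h7 : 0 ≤ Real.sqrt N * ((∑ c, β c) ^ 2 + 1) := by positivity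
    nlinarith
  have hfin : EL (E N) (vH β N) (fun _ => 0) ≤ A + (N * (F - d) + B * Real.sqrt N) := by
    rw [EL_eq]
    have h8 : ∫ x, Real.log (ZE β (E N) x) ∂(gam (Fin N × Fin N)) ≤
        ∫ x, (A + (N * (F - d) + D x)) ∂(gam (Fin N × Fin N)) :=
      integral_mono (integrable_log_ZE β hEne)
        ((integrable_const _).add ((integrable_const _).add hDi)) hpt
    have hi2 : Integrable (fun x => (N : ℝ) * (F - d) + D x) (gam (Fin N × Fin N)) :=
      (integrable_const _).add hDi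
    rw [integral_add (integrable_const _) hi2, integral_add (integrable_const _) hDi] at h8
    simp only [integral_const, probReal_univ, one_smul] at h8
    linarith
  rw [le_div_iff₀ hN'] at hEL
  nlinarith

end SKC.C
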