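import Pool.Agent.H.MP_08eaf3_pr.C.FullK

/-!
# Part C: sets of smaller free energy have small Gibbs probability
-/

set_option autoImplicit false

open MeasureTheory ProbabilityTheory Filter Topology Matrix

namespace SKC.C

variable {K : Type} {N : ℕ}

theorem ratio_le_one [Fintype K] [DecidableEq K] (β : K → ℝ) (B : Finset (Cfg K N)) (x : Fin N × Fin N → ℝ) :
    ZE β B x / ZE β Finset.univ x ≤ 1 := by
  exact div_le_one_of_le₀ (ZE_mono β (Finset.subset_univ _) x) (ZE_nonneg _ _ _)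

theorem ratio_nonneg [Fintype K] [DecidableEq K] (β : K → ℝ) (B : Finset (Cfg K N)) (x : Fin N × Fin N → ℝ) :
    0 ≤ ZE β B x / ZE β Finset.univ x :=
  div_nonneg (ZE_nonneg _ _ _) (ZE_nonneg _ _ _)

theorem integrable_ratio [Fintype K] [DecidableEq K] (β : K → ℝ) (B : Finset (Cfg K N)) :
    Integrable (fun x => ZE β B x / ZE β Finset.univ x) (gam (Fin N × Fin N)) := by
  refine (integrable_const (1 : ℝ)).mono' ?_ (Eventually.of_forall (fun x => ?_))
  · refine (Continuous.div (continuous_ZE β B) (continuous_ZE β Finset.univ)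
      (fun x => (ZE_pos β Finset.univ_nonempty x).ne')).aestronglyMeasurable
  · rw [Real.norm_eq_abs, abs_of_nonneg (ratio_nonneg β B x)]
    exact ratio_le_one β B x

/-- quantitative bound -/
theorem ratio_bound [Fintype K] [DecidableEq K] (β : K → ℝ) (hβ : ∀ c, 0 ≤ β c) (hN : 0 < N)
    (B : Finset (Cfg K N)) (hB : B.Nonempty) (d : ℝ) (hd : 0 < d)
    (h : EL B (vH β N) (fun _ => 0) ≤
      EL (Finset.univ : Finset (Cfg K N)) (vH β N) (fun _ => 0) - 2 * d * N) :
    ∫ x, ZE β B x / ZE β Finset.univ x ∂(gam (Fin N × Fin N)) ≤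
      Real.exp (-(d * N)) + 4 * (∑ c, β c) ^ 2 / (d ^ 2 * N) := by
  have hN' : (0 : ℝ) < N := by exact_mod_cast hN
  have hU : (Finset.univ : Finset (Cfg K N)).Nonempty := Finset.univ_nonempty
  set m1 := EL B (vH β N) (fun _ => 0) with hm1
  set m2 := EL (Finset.univ : Finset (Cfg K N)) (vH β N) (fun _ => 0) with hm2
  have hi1 := integrable_sq_log_ZE β hB m1
  have hi2 := integrable_sq_log_ZE β hU m2
  have hv1 : ∫ x, (Real.log (ZE β B x) - m1) ^ 2 ∂(gam (Fin N × Fin N)) ≤
      N * (∑ c, β c) ^ 2 := var_le β hβ hN B hB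
  have hv2 : ∫ x, (Real.log (ZE β Finset.univ x) - m2) ^ 2 ∂(gam (Fin N × Fin N)) ≤
      N * (∑ c, β c) ^ 2 := var_le β hβ hN Finset.univ hU
  set c0 : ℝ := 2 / (d * N) ^ 2 with hc0
  have hc0' : 0 ≤ c0 := by positivity
  have hpt : ∀ x, ZE β B x / ZE β Finset.univ x ≤ Real.exp (-(d * N)) +
      (c0 * (Real.log (ZE β B x) - m1) ^ 2 + c0 * (Real.log (ZE β Finset.univ x) - m2) ^ 2) := by
    intro x
    set a := Real.log (ZE β B x) with ha
    set b := Real.log (ZE β Finset.univ x) with hb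
    have hnn : 0 ≤ c0 * (a - m1) ^ 2 + c0 * (b - m2) ^ 2 := by positivity
    by_cases hab : a - b ≤ -(d * N)
    · have h1 : ZE β B x / ZE β Finset.univ x = Real.exp (a - b) := by
        rw [Real.exp_sub, ha, hb, Real.exp_log (ZE_pos β hB x), Real.exp_log (ZE_pos β hU x)]
      rw [h1]
      have h2 := Real.exp_le_exp.2 hab
      linarith
    · rw [not_le] at hab
      have h1 := ratio_le_one β B x
      have h2 : d * N ≤ (a - m1) - (b - m2) := by linarith
      have h3 : (d * N) ^ 2 ≤ ((a - m1) - (b - m2)) ^ 2 := by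
        apply pow_le_pow_left₀ (by positivity) h2
      have h4 : ((a - m1) - (b - m2)) ^ 2 ≤ 2 * (a - m1) ^ 2 + 2 * (b - m2) ^ 2 := by
        nlinarith [sq_nonneg ((a - m1) + (b - m2))]
      have h5 : 1 ≤ c0 * (a - m1) ^ 2 + c0 * (b - m2) ^ 2 := by
        have h6 : c0 * (a - m1) ^ 2 + c0 * (b - m2) ^ 2 =
            (2 * (a - m1) ^ 2 + 2 * (b - m2) ^ 2) / (d * N) ^ 2 := by
          rw [hc0]; ring
        rw [h6, one_le_div (by positivity)]
        linarith
      have h7 := (Real.exp_pos (-(d * N))).le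
      linarith
  have hi3 : Integrable (fun x => c0 * (Real.log (ZE β B x) - m1) ^ 2 +
      c0 * (Real.log (ZE β Finset.univ x) - m2) ^ 2) (gam (Fin N × Fin N)) :=
    (hi1.const_mul _).add (hi2.const_mul _)
  calc ∫ x, ZE β B x / ZE β Finset.univ x ∂(gam (Fin N × Fin N))
      ≤ ∫ x, (Real.exp (-(d * N)) +
      (c0 * (Real.log (ZE β B x) - m1) ^ 2 + c0 * (Real.log (ZE β Finset.univ x) - m2) ^ 2))
        ∂(gam (Fin N × Fin N)) :=
        integral_mono (integrable_ratio β B) ((integrable_const _).add hi3) hpt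
    _ = Real.exp (-(d * N)) + (c0 * (∫ x, (Real.log (ZE β B x) - m1) ^ 2 ∂(gam (Fin N × Fin N))) +
        c0 * (∫ x, (Real.log (ZE β Finset.univ x) - m2) ^ 2 ∂(gam (Fin N × Fin N)))) := by
        rw [integral_add (integrable_const _) hi3, integral_add (hi1.const_mul _)
          (hi2.const_mul _), integral_const_mul, integral_const_mul]
        simp
    _ ≤ Real.exp (-(d * N)) + (c0 * (N * (∑ c, β c) ^ 2) + c0 * (N * (∑ c, β c) ^ 2)) := by
        gcongr
    _ = Real.exp (-(d * N)) + 4 * (∑ c, β c) ^ 2 / (d ^ 2 * N) := by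
        rw [hc0]
        field_simp
        ring

/-- the Gibbs probability of sets of smaller free energy tends to `0` -/
theorem gibbs_small [Fintype K] [DecidableEq K] (β : K → ℝ) (hβ : ∀ c, 0 ≤ β c)
    (hP : ∀ c, Tendsto (FN (β c)) atTop (𝓝 (Fo (β c)))) (B : ∀ N : ℕ, Finset (Cfg K N))
    (hB : ¬ FullK β B) :
    Tendsto (fun N : ℕ => ∫ x, ZE β (B N) x / ZE β Finset.univ x ∂(gam (Fin N × Fin N)))
      atTop (𝓝 0) := by
  unfold FullK at hB
  push Not at hB
  obtain ⟨δ, hδ, hev⟩ := hB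
  have hF : Tendsto (fun N : ℕ => ∑ c, FN (β c) N) atTop (𝓝 (∑ c, Fo (β c))) :=
    tendsto_finsetSum _ (fun c _ => hP c)
  have hF' : ∀ᶠ N : ℕ in atTop, (∑ c, Fo (β c)) - δ / 2 ≤ ∑ c, FN (β c) N :=
    (hF.eventually (lt_mem_nhds (show (∑ c, Fo (β c)) - δ / 2 < ∑ c, Fo (β c) by linarith))).mono
      (fun N hN => hN.le)
  set d := δ / 4 with hd
  have hd0 : 0 < d := by positivity
  have hbound : ∀ᶠ N : ℕ in atTop,
      ∫ x, ZE β (B N) x / ZE β Finset.univ x ∂(gam (Fin N × Fin N)) ≤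
        Real.exp (-(d * N)) + 4 * (∑ c, β c) ^ 2 / (d ^ 2 * N) := by
    filter_upwards [hev, hF', eventually_gt_atTop 0] with N h1 h2 h3
    have hN' : (0 : ℝ) < N := by exact_mod_cast h3
    rcases (B N).eq_empty_or_nonempty with h0 | h0
    · rw [h0]
      have h4 : ∀ x : Fin N × Fin N → ℝ, ZE β (∅ : Finset (Cfg K N)) x = 0 := by
        intro x
        unfold ZE
        exact Finset.sum_empty
      simp only [h4, zero_div, integral_zero]
      positivity
    · refine ratio_bound β hβ h3 (B N) h0 d hd0 ?_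
      have h4 := h1 h0
      rw [div_lt_iff₀ hN'] at h4
      rw [EL_univ β h3]
      have h5 : ((∑ c, Fo (β c)) - δ / 2) * N ≤ (∑ c, FN (β c) N) * N :=
        mul_le_mul_of_nonneg_right h2 hN'.le
      rw [hd]
      linarith
  have hlim : Tendsto (fun N : ℕ => Real.exp (-(d * N)) + 4 * (∑ c, β c) ^ 2 / (d ^ 2 * N))
      atTop (𝓝 0) := by
    have hNt : Tendsto (fun N : ℕ => (N : ℝ)) atTop atTop := tendsto_natCast_atTop_atTop
    have h1 : Tendsto (fun N : ℕ => Real.exp (-(d * N))) atTop (𝓝 0) :=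
      Real.tendsto_exp_neg_atTop_nhds_zero.comp (hNt.const_mul_atTop hd0)
    have h2 : Tendsto (fun N : ℕ => 4 * (∑ c, β c) ^ 2 / (d ^ 2 * N)) atTop (𝓝 0) :=
      Tendsto.div_atTop tendsto_const_nhds (hNt.const_mul_atTop (by positivity))
    have h3 := h1.add h2
    rwa [add_zero] at h3
  refine tendsto_of_tendsto_of_tendsto_of_le_of_le' tendsto_const_nhds hlim
    (Eventually.of_forall (fun N => ?_)) hbound
  exact integral_nonneg (fun x => ratio_nonneg β (B N) x)

end SKC.C
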