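import Pool.Agent.H.MP_08eaf3_pr.C.U

/-!
# Part C: positive semidefiniteness of the levels of a full tree
-/

set_option autoImplicit false

open MeasureTheory ProbabilityTheory Filter Topology Matrix

namespace SKC.C

/-- the tree matrix of a full tree is positive semidefinite -/
theorem tree_psd {b1 b2 u : ℝ} {Q Q' : Matrix (Fin 2) (Fin 2) ℝ} (h : TreeFull b1 b2 u Q Q')
    (n k : ℕ) (hn : 0 < n) (hk : 0 < k) (w : (Fin n × Fin k) × Fin 2 → ℝ) :
    0 ≤ ∑ p, ∑ p', w p * w p' * treeM n k u Q Q' p p' := by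
  set X := ∑ p, ∑ p', w p * w p' * treeM n k u Q Q' p p' with hX
  set A := ∑ p, ∑ p', |w p| * |w p'| with hA
  have hA0 : 0 ≤ A := Finset.sum_nonneg (fun p _ => Finset.sum_nonneg (fun p' _ =>
    mul_nonneg (abs_nonneg _) (abs_nonneg _)))
  have key : ∀ ε : ℝ, 0 < ε → -(ε * A) ≤ X := by
    intro ε hε
    obtain ⟨N, ⟨ρ, hρ⟩, -⟩ := (h n k hn hk ε hε 1 one_pos).exists
    rw [mem_near] at hρ
    have h1 := ov_psd ρ w
    have h2 : ∑ p, ∑ p', w p * w p' * ov ρ ρ p p' ≤ X + ε * A := by
      rw [hX, hA, Finset.mul_sum, ← Finset.sum_add_distrib]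
      refine Finset.sum_le_sum (fun p _ => ?_)
      rw [Finset.mul_sum, ← Finset.sum_add_distrib]
      refine Finset.sum_le_sum (fun p' _ => ?_)
      have h3 := hρ p p'
      have h4 : w p * w p' * ov ρ ρ p p' = w p * w p' * treeM n k u Q Q' p p' +
          w p * w p' * (ov ρ ρ p p' - treeM n k u Q Q' p p') := by ring
      have h5 : w p * w p' * (ov ρ ρ p p' - treeM n k u Q Q' p p') ≤ ε * (|w p| * |w p'|) := by
        refine (le_abs_self _).trans ?_
        rw [abs_mul, abs_mul, mul_comm ε]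
        exact mul_le_mul_of_nonneg_left h3 (mul_nonneg (abs_nonneg _) (abs_nonneg _))
      linarith
    linarith
  by_contra hneg
  rw [not_le] at hneg
  have h1 := key (-X / (2 * (A + 1))) (by
    apply div_pos (by linarith) (by positivity))
  have h2 : -X / (2 * (A + 1)) * A ≤ -X / 2 := by
    rw [div_mul_eq_mul_div, div_le_div_iff₀ (by positivity) (by norm_num)]
    nlinarith
  linarith

theorem tree_symm {b1 b2 u : ℝ} {Q Q' : Matrix (Fin 2) (Fin 2) ℝ} (h : TreeFull b1 b2 u Q Q')
    (c c' : Fin 2) : Q c c' = Q c' c := by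
  have key : ∀ ε : ℝ, 0 < ε → |Q c c' - Q c' c| ≤ ε := by
    intro ε hε
    obtain ⟨N, ⟨ρ, hρ⟩, -⟩ := (h 2 1 (by norm_num) one_pos (ε / 2) (by positivity) 1 one_pos).exists
    rw [mem_near] at hρ
    have h1 := hρ ((0, 0), c) ((1, 0), c')
    have h2 := hρ ((1, 0), c') ((0, 0), c)
    have e1 : treeM 2 1 u Q Q' ((0, 0), c) ((1, 0), c') = Q c c' := by
      simp [treeM, treeG]
    have e2 : treeM 2 1 u Q Q' ((1, 0), c') ((0, 0), c) = Q c' c := by
      simp [treeM, treeG]
    rw [e1] at h1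
    rw [e2, ov_symm] at h2
    have h3 : Q c c' - Q c' c = (ov ρ ρ ((0, 0), c) ((1, 0), c') - Q c' c) -
      (ov ρ ρ ((0, 0), c) ((1, 0), c') - Q c c') := by ring
    rw [h3]
    exact (abs_sub _ _).trans (by linarith)
  have h4 : |Q c c' - Q c' c| ≤ 0 := le_of_forall_pos_le_add (fun ε hε => by
    have := key ε hε
    linarith)
  have h5 := abs_nonpos_iff.1 h4
  linarith

/-- quadratic form -/
noncomputable def qf (M : Matrix (Fin 2) (Fin 2) ℝ) (v : Fin 2 → ℝ) : ℝ :=
  ∑ c, ∑ c', v c * v c' * M c c'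

theorem psd_of_qf {M : Matrix (Fin 2) (Fin 2) ℝ} (hs : ∀ c c', M c c' = M c' c)
    (h : ∀ v, 0 ≤ qf M v) : M.PosSemidef := by
  refine Matrix.PosSemidef.of_dotProduct_mulVec_nonneg ?_ (fun x => ?_)
  · ext i j
    simp [Matrix.conjTranspose_apply, hs j i]
  · have h1 := h x
    have h2 : star x ⬝ᵥ M *ᵥ x = qf M x := by
      simp [qf, dotProduct, Matrix.mulVec, Fin.sum_univ_two]
      ring
    rw [h2]
    exact h1

/-- first test vector -/
theorem qf_top {b1 b2 u : ℝ} {Q Q' : Matrix (Fin 2) (Fin 2) ℝ} (h : TreeFull b1 b2 u Q Q')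
    (v : Fin 2 → ℝ) : qf Q' v ≤ qf (mat 1 1 u) v := by
  have h1 := tree_psd h 1 2 one_pos (by norm_num)
    (fun p => (if p.1.2 = 0 then (1 : ℝ) else -1) * v p.2)
  have h2 : ∑ p, ∑ p', ((if p.1.2 = 0 then (1 : ℝ) else -1) * v p.2) *
      ((if p'.1.2 = 0 then (1 : ℝ) else -1) * v p'.2) * treeM 1 2 u Q Q' p p' =
      2 * qf (mat 1 1 u) v - 2 * qf Q' v := by
    simp only [Fintype.sum_prod_type, Fin.sum_univ_two, Finset.univ_unique, Fin.default_eq_zero,
      Finset.sum_singleton, treeM, treeG, qf, Prod.mk.injEq]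
    simp
    ring
  rw [h2] at h1
  linarith

/-- second test vector -/
theorem qf_low {b1 b2 u : ℝ} {Q Q' : Matrix (Fin 2) (Fin 2) ℝ} (h : TreeFull b1 b2 u Q Q')
    (v : Fin 2 → ℝ) : qf Q v ≤ qf Q' v := by
  have key : ∀ k : ℕ, 0 < k →
      0 ≤ (k : ℝ) * (qf Q' v - qf Q v) + (qf (mat 1 1 u) v - qf Q' v) := by
    intro k hk
    let s : Fin 2 → ℝ := fun a => if a = 0 then 1 else -1
    have h1 := tree_psd h 2 k (by norm_num) hk (fun p => s p.1.1 * v p.2)
    have e1 : ∀ p p' : Fin 2 × Fin k, ∑ c, ∑ c', (s p.1 * v c) * (s p'.1 * v c') *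
        treeM 2 k u Q Q' (p, c) (p', c') =
        s p.1 * s p'.1 * ((if p.1 = p'.1 then qf Q' v else qf Q v) +
          if p = p' then qf (mat 1 1 u) v - qf Q' v else 0) := by
      intro p p'
      by_cases hp : p = p'
      · subst hp
        simp only [treeM, treeG, if_true, qf]
        simp only [add_sub_cancel, Finset.mul_sum]
        exact Finset.sum_congr rfl (fun c _ => Finset.sum_congr rfl (fun c' _ => by ring))
      · by_cases hp1 : p.1 = p'.1
        · simp only [treeM, treeG, hp, hp1, if_false, if_true, qf, add_zero, Finset.mul_sum]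
          exact Finset.sum_congr rfl (fun c _ => Finset.sum_congr rfl (fun c' _ => by ring))
        · simp only [treeM, treeG, hp, hp1, if_false, qf, add_zero, Finset.mul_sum]
          exact Finset.sum_congr rfl (fun c _ => Finset.sum_congr rfl (fun c' _ => by ring))
    have e2 : ∑ P : (Fin 2 × Fin k) × Fin 2, ∑ P' : (Fin 2 × Fin k) × Fin 2,
        (s P.1.1 * v P.2) * (s P'.1.1 * v P'.2) * treeM 2 k u Q Q' P P' =
        ∑ p : Fin 2 × Fin k, ∑ p' : Fin 2 × Fin k,
          s p.1 * s p'.1 * ((if p.1 = p'.1 then qf Q' v else qf Q v) +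
          if p = p' then qf (mat 1 1 u) v - qf Q' v else 0) := by
      rw [Fintype.sum_prod_type]
      refine Finset.sum_congr rfl (fun p _ => ?_)
      simp only [Fintype.sum_prod_type (γ := ℝ) (α₁ := Fin 2 × Fin k) (α₂ := Fin 2)]
      rw [Finset.sum_comm]
      exact Finset.sum_congr rfl (fun p' _ => e1 p p')
    have e3 : ∀ p : Fin 2 × Fin k, ∑ p' : Fin 2 × Fin k,
          s p.1 * s p'.1 * ((if p.1 = p'.1 then qf Q' v else qf Q v) +
          if p = p' then qf (mat 1 1 u) v - qf Q' v else 0) =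
        (k : ℝ) * (qf Q' v - qf Q v) + (qf (mat 1 1 u) v - qf Q' v) := by
      intro p
      have e4 : ∀ p' : Fin 2 × Fin k, s p.1 * s p'.1 * ((if p.1 = p'.1 then qf Q' v else qf Q v) +
          if p = p' then qf (mat 1 1 u) v - qf Q' v else 0) =
          s p.1 * s p'.1 * (if p.1 = p'.1 then qf Q' v else qf Q v) +
          if p = p' then qf (mat 1 1 u) v - qf Q' v else 0 := by
        intro p'
        by_cases hp : p = p'
        · subst hp
          have hs : s p.1 * s p.1 = 1 := by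
            simp only [s]
            split_ifs <;> norm_num
          simp only [if_true, hs, one_mul]
        · simp only [hp, if_false, add_zero]
      rw [Finset.sum_congr rfl (fun p' _ => e4 p'), Finset.sum_add_distrib,
        Finset.sum_ite_eq, if_pos (Finset.mem_univ _)]
      congr 1
      rw [Fintype.sum_prod_type]
      rw [Fin.sum_univ_two]
      obtain ⟨a, x⟩ := p
      fin_cases a
      · simp [s]
        ring
      · simp [s]
        ring
    rw [e2, Finset.sum_congr rfl (fun p _ => e3 p), Finset.sum_const, nsmul_eq_mul] at h1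
    have hcard : (0 : ℝ) < ((Finset.univ : Finset (Fin 2 × Fin k)).card : ℝ) := by
      rw [Finset.card_univ, Fintype.card_prod, Fintype.card_fin, Fintype.card_fin]
      exact_mod_cast Nat.mul_pos (by norm_num) hk
    by_contra hneg
    rw [not_le] at hneg
    have := mul_neg_of_pos_of_neg hcard hneg
    linarith
  by_contra hneg
  rw [not_le] at hneg
  obtain ⟨k, hk⟩ := exists_nat_gt ((qf (mat 1 1 u) v - qf Q' v) / (qf Q v - qf Q' v))
  have hd : 0 < qf Q v - qf Q' v := by linarith
  rw [div_lt_iff₀ hd] at hk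
  have h1 := key (k + 1) (Nat.succ_pos k)
  push_cast at h1
  nlinarith

end SKC.C
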