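import Pool.Agent.H.MP_08eaf3_pr.C.Base
import Pool.Agent.H.MP_08eaf3_pr.IfA

/-!
# Part C, module W: the integral of the frozen statement in terms of `vH`

The frozen field `X g s = N^{-1/2} ∑_{i<j} g_ij s_i s_j` has kernel `(N R² - 1)/2`; adding the
constant field `ξ/√2` gives the kernel `N R²/2` of `hh x s / √2`. The Gibbs ratio `Fr` does not
change when a constant is added to the field.
-/

set_option autoImplicit false

open MeasureTheory ProbabilityTheory Filter Topology Matrix

namespace SKC.C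

variable {N : ℕ}

/-- pairs of configurations with overlap at least `ε` in absolute value -/
noncomputable def farU (N : ℕ) (ε : ℝ) : Finset (Cfg (Unit × Fin 2) N) := by
  classical
  exact Finset.univ.filter (fun ρ => ε ≤ |ov ρ ρ ((), 0) ((), 1)|)

/-- the field of the frozen statement -/
noncomputable def Xf (g : Fin N → Fin N → ℝ) (s : Fin N → Bool) : ℝ :=
  (∑ i, ∑ j, if i < j then g i j * sg (s i) * sg (s j) else 0) / Real.sqrt N

/-- Gibbs ratio as a function of the field -/
noncomputable def Fr (β β' ε : ℝ) (y : (Fin N → Bool) → ℝ) : ℝ :=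
  (∑ s : Fin N → Bool, ∑ t : Fin N → Bool,
      if ε ≤ |(∑ i, sg (s i) * sg (t i)) / (N : ℝ)| then
        Real.exp (β * y s) * Real.exp (β' * y t) else 0) /
    ((∑ s : Fin N → Bool, Real.exp (β * y s)) * (∑ t : Fin N → Bool, Real.exp (β' * y t)))

theorem W_inj : Function.Injective sg := by
  intro a b h
  cases a <;> cases b <;> simp [sg] at h ⊢ <;> norm_num at h

theorem W_sum (F : (Fin N → ℝ) → ℝ) :
    ∑ σ ∈ Fintype.piFinset (fun _ : Fin N => ({-1, 1} : Finset ℝ)), F σ =
      ∑ s : Fin N → Bool, F (fun i => sg (s i)) := by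
  classical
  have h1 : ({-1, 1} : Finset ℝ) = (Finset.univ : Finset Bool).image sg := by
    ext t
    simp only [Finset.mem_insert, Finset.mem_singleton, Finset.mem_image, Finset.mem_univ,
      true_and]
    constructor
    · rintro (rfl | rfl)
      · exact ⟨false, rfl⟩
      · exact ⟨true, rfl⟩
    · rintro ⟨b, rfl⟩
      cases b
      · exact Or.inl rfl
      · exact Or.inr rfl
  have h2 := Fintype.piFinset_image (fun _ : Fin N => sg)
    (fun _ : Fin N => (Finset.univ : Finset Bool))
  rw [h1, h2, Fintype.piFinset_univ, Finset.sum_image]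
  intro a _ b _ h
  funext i
  exact W_inj (congrFun h i)

/-- W1: real spins and boolean spins.
Proof: the map `s ↦ (fun i => sg (s i))` is a bijection from `Fin N → Bool` to
`Fintype.piFinset (fun _ => {-1, 1})`; use it in each of the four sums. -/
theorem W1 (β β' ε : ℝ) (g : Fin N → Fin N → ℝ) :
    (∑ σ ∈ Fintype.piFinset (fun _ : Fin N => ({-1, 1} : Finset ℝ)),
          ∑ τ ∈ Fintype.piFinset (fun _ : Fin N => ({-1, 1} : Finset ℝ)),
            if ε ≤ |(∑ i, σ i * τ i) / (N : ℝ)| then
              Real.exp (β * ((∑ i, ∑ j, if i < j then g i j * σ i * σ j else 0) / Real.sqrt N)) *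
              Real.exp (β' * ((∑ i, ∑ j, if i < j then g i j * τ i * τ j else 0) / Real.sqrt N))
            else 0) /
        ((∑ σ ∈ Fintype.piFinset (fun _ : Fin N => ({-1, 1} : Finset ℝ)),
            Real.exp (β * ((∑ i, ∑ j, if i < j then g i j * σ i * σ j else 0) / Real.sqrt N))) *
         (∑ τ ∈ Fintype.piFinset (fun _ : Fin N => ({-1, 1} : Finset ℝ)),
            Real.exp (β' * ((∑ i, ∑ j, if i < j then g i j * τ i * τ j else 0) / Real.sqrt N)))) =
      Fr β β' ε (Xf g) := by
  rw [W_sum, W_sum, W_sum, Finset.sum_congr rfl fun s _ => W_sum _]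
  rfl

/-- W2: adding a constant to the field does not change the ratio.
Proof: `exp (β (y s + c)) = exp (β c) * exp (β y s)`; numerator and denominator are both multiplied by
`exp (β c) * exp (β' c)`. -/
theorem W2 (β β' ε : ℝ) (y : (Fin N → Bool) → ℝ) (c : ℝ) :
    Fr β β' ε (fun s => y s + c) = Fr β β' ε y := by
  have h1 : ∀ (b : ℝ) (s : Fin N → Bool), Real.exp (b * (y s + c)) =
      Real.exp (b * c) * Real.exp (b * y s) := by
    intro b s
    rw [← Real.exp_add]
    congr 1
    ring
  unfold Fr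
  simp only [h1]
  have h2 : (∑ s : Fin N → Bool, ∑ t : Fin N → Bool,
      if ε ≤ |(∑ i, sg (s i) * sg (t i)) / (N : ℝ)| then
        Real.exp (β * c) * Real.exp (β * y s) * (Real.exp (β' * c) * Real.exp (β' * y t)) else 0) =
      (Real.exp (β * c) * Real.exp (β' * c)) * ∑ s : Fin N → Bool, ∑ t : Fin N → Bool,
      if ε ≤ |(∑ i, sg (s i) * sg (t i)) / (N : ℝ)| then
        Real.exp (β * y s) * Real.exp (β' * y t) else 0 := by
    rw [Finset.mul_sum]
    refine Finset.sum_congr rfl fun s _ => ?_
    rw [Finset.mul_sum]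
    refine Finset.sum_congr rfl fun t _ => ?_
    split_ifs
    · ring
    · rw [mul_zero]
  have h3 : (∑ s : Fin N → Bool, Real.exp (β * c) * Real.exp (β * y s)) *
      (∑ t : Fin N → Bool, Real.exp (β' * c) * Real.exp (β' * y t)) =
      (Real.exp (β * c) * Real.exp (β' * c)) * ((∑ s : Fin N → Bool, Real.exp (β * y s)) *
        (∑ t : Fin N → Bool, Real.exp (β' * y t))) := by
    rw [← Finset.mul_sum, ← Finset.mul_sum]
    ring
  rw [h2, h3]
  exact mul_div_mul_left _ _ (mul_pos (Real.exp_pos _) (Real.exp_pos _)).ne'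

/-- W3: features of the frozen field (first component) and the kernel computation.
`vX s p = sg (s p.1) sg (s p.2) / √N` if `p.1 < p.2`, otherwise `0`. With `R = (∑ i, sg (s i) sg (t i))`
(not divided by `N`): `dot (vX s) (vX t) + 1/2 = dot (hh-features/√2) (...) = R²/(2N)`. -/
noncomputable def vX (s : Fin N → Bool) (p : Fin N × Fin N) : ℝ :=
  if p.1 < p.2 then sg (s p.1) * sg (s p.2) / Real.sqrt N else 0

/-- features of `hh x s / √2` -/
noncomputable def vh2 (s : Fin N → Bool) (p : Fin N × Fin N) : ℝ :=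
  sg (s p.1) * sg (s p.2) / Real.sqrt N / Real.sqrt 2

/-- Proof: with `a_i = sg (s i) sg (t i)` (`a_i² = 1`) the left side is `(∑_{i<j} a_i a_j)/N + 1/2` and the
right side is `(∑_{i,j} a_i a_j)/(2N) = (2 ∑_{i<j} a_i a_j + N)/(2N)`. -/
theorem W3 (hN : 0 < N) (s t : Fin N → Bool) :
    dot (vX s) (vX t) + 1 / 2 = dot (vh2 s) (vh2 t) := by
  have hN' : (0 : ℝ) < N := by exact_mod_cast hN
  have hsq : Real.sqrt N * Real.sqrt N = N := Real.mul_self_sqrt hN'.le
  have hsq2 : Real.sqrt 2 * Real.sqrt 2 = 2 := Real.mul_self_sqrt (by norm_num)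
  let b : Fin N × Fin N → ℝ := fun p =>
    (sg (s p.1) * sg (t p.1)) * (sg (s p.2) * sg (t p.2)) / N
  have hb : ∀ p, b p = (sg (s p.1) * sg (t p.1)) * (sg (s p.2) * sg (t p.2)) / N := fun _ => rfl
  have h1 : dot (vX s) (vX t) = ∑ p : Fin N × Fin N, if p.1 < p.2 then b p else 0 := by
    unfold dot vX
    refine Finset.sum_congr rfl fun p _ => ?_
    split_ifs
    · rw [div_mul_div_comm, hsq, hb]
      ring
    · rw [mul_zero]
  have h2 : dot (vh2 s) (vh2 t) = (1 / 2) * ∑ p : Fin N × Fin N, b p := by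
    unfold dot vh2
    rw [Finset.mul_sum]
    refine Finset.sum_congr rfl fun p _ => ?_
    rw [div_mul_div_comm, div_mul_div_comm, hsq, hsq2, hb]
    ring
  have h3 : ∑ p : Fin N × Fin N, b p = (∑ p : Fin N × Fin N, if p.1 < p.2 then b p else 0) +
      (∑ p : Fin N × Fin N, if p.2 < p.1 then b p else 0) +
      ∑ p : Fin N × Fin N, if p.1 = p.2 then b p else 0 := by
    rw [← Finset.sum_add_distrib, ← Finset.sum_add_distrib]
    refine Finset.sum_congr rfl fun p _ => ?_
    rcases lt_trichotomy p.1 p.2 with h | h | h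
    · rw [if_pos h, if_neg (not_lt.2 h.le), if_neg h.ne, add_zero, add_zero]
    · rw [if_neg (by rw [h]; exact lt_irrefl _), if_neg (by rw [h]; exact lt_irrefl _), if_pos h,
        add_zero, zero_add]
    · rw [if_neg (not_lt.2 h.le), if_pos h, if_neg h.ne', add_zero, zero_add]
  have h4 : (∑ p : Fin N × Fin N, if p.2 < p.1 then b p else 0) =
      ∑ p : Fin N × Fin N, if p.1 < p.2 then b p else 0 := by
    refine Fintype.sum_equiv (Equiv.prodComm (Fin N) (Fin N)) _ _ fun p => ?_
    show (if p.2 < p.1 then b p else 0) = if p.2 < p.1 then b (p.2, p.1) else 0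
    split_ifs
    · rw [hb, hb]
      ring
    · rfl
  have h5 : (∑ p : Fin N × Fin N, if p.1 = p.2 then b p else 0) = 1 := by
    rw [Fintype.sum_prod_type]
    have h6 : ∀ i : Fin N, (∑ j : Fin N, if i = j then b (i, j) else 0) = 1 / N := by
      intro i
      rw [Finset.sum_ite_eq Finset.univ i (fun j => b (i, j)), if_pos (Finset.mem_univ _), hb]
      have h7 : sg (s i) * sg (t i) * (sg (s i) * sg (t i)) = 1 := by
        have e1 := sg_mul_self (s i)
        have e2 := sg_mul_self (t i)
        calc sg (s i) * sg (t i) * (sg (s i) * sg (t i)) =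
            (sg (s i) * sg (s i)) * (sg (t i) * sg (t i)) := by ring
          _ = 1 := by rw [e1, e2, one_mul]
      rw [h7]
    rw [Finset.sum_congr rfl fun i _ => h6 i, Finset.sum_const, Finset.card_univ,
      Fintype.card_fin, nsmul_eq_mul]
    field_simp
  rw [h1, h2, h3, h4, h5]
  ring

/-- W4: the product measure of the frozen statement is the image of `gam (Fin N × Fin N)` under
currying. Proof: `MeasureTheory.Measure.infinitePi_map_curry` (Mathlib, Probability/ProductMeasure) and
`MeasureTheory.Measure.infinitePi_eq_pi`. -/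
theorem W4 (N : ℕ) :
    (gam (Fin N × Fin N)).map (fun x (i j : Fin N) => x (i, j)) =
      MeasureTheory.Measure.pi (fun _ : Fin N =>
          MeasureTheory.Measure.pi (fun _ : Fin N => ProbabilityTheory.gaussianReal 0 1)) := by
  have h := MeasureTheory.Measure.infinitePi_map_curry
    (fun (_ : Fin N) (_ : Fin N) => gaussianReal 0 1)
  simp only [MeasureTheory.Measure.infinitePi_eq_pi] at h
  exact h

/-- W5: `Fr` is continuous. Proof: finite sums, the denominator is positive. -/
theorem W5 (β β' ε : ℝ) : Continuous (fun y : (Fin N → Bool) → ℝ => Fr β β' ε y) := by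
  unfold Fr
  refine Continuous.div ?_ ?_ ?_
  · refine continuous_finsetSum _ fun s _ => continuous_finsetSum _ fun t _ => ?_
    by_cases h : ε ≤ |(∑ i, sg (s i) * sg (t i)) / (N : ℝ)|
    · simp only [h, if_true]
      fun_prop
    · simp only [h, if_false]
      exact continuous_const
  · fun_prop
  · intro y
    refine (mul_pos ?_ ?_).ne'
    · exact Finset.sum_pos (fun s _ => Real.exp_pos _) Finset.univ_nonempty
    · exact Finset.sum_pos (fun s _ => Real.exp_pos _) Finset.univ_nonempty

theorem W_wt (b : ℝ) (x : Fin N × Fin N → ℝ) (s : Fin N → Bool) :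
    wt (b / Real.sqrt 2) x s = Real.exp (b * dot x (vh2 s)) := by
  unfold wt hh dot vh2
  congr 1
  rw [Finset.mul_sum, Finset.mul_sum]
  refine Finset.sum_congr rfl fun p _ => ?_
  ring

/-- the configurations of the pair system are the pairs of configurations -/
def W_e (N : ℕ) : Cfg (Unit × Fin 2) N ≃ (Fin N → Bool) × (Fin N → Bool) where
  toFun ρ := (row ρ ((), 0), row ρ ((), 1))
  invFun p := fun i c => if c.2 = 0 then p.1 i else p.2 i
  left_inv ρ := by
    funext i c
    obtain ⟨u, j⟩ := c
    fin_cases j <;> rfl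
  right_inv p := rfl

theorem W_prod (b1 b2 : ℝ) (f : ℝ → (Fin N → Bool) → ℝ) (ρ : Cfg (Unit × Fin 2) N) :
    ∏ c : Unit × Fin 2, f (beN b1 b2 Unit c) (row ρ c) =
      f b1 (row ρ ((), 0)) * f b2 (row ρ ((), 1)) := by
  rw [Fintype.prod_prod_type, Fintype.prod_unique, Fin.prod_univ_two]
  rfl

/-- W6: the ratio in terms of `ZE`.
Proof: sum over `Cfg (Unit × Fin 2) N` = double sum over `s = row ρ ((), 0)`, `t = row ρ ((), 1)`;
`exp (dot x (vH ..)) = exp (b1 hh x s) exp (b2 hh x t)` by `dot_vH`; `hh x s / √2 = dot x (vh2 s)`;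
the denominator is `ZE_univ`. -/
theorem W6 (β β' ε : ℝ) (x : Fin N × Fin N → ℝ) :
    ZE (beN (β / Real.sqrt 2) (β' / Real.sqrt 2) Unit) (farU N ε) x /
        ZE (beN (β / Real.sqrt 2) (β' / Real.sqrt 2) Unit) Finset.univ x =
      Fr β β' ε (fun s => dot x (vh2 s)) := by
  classical
  have h1 : ZE (beN (β / Real.sqrt 2) (β' / Real.sqrt 2) Unit) Finset.univ x =
      (∑ s : Fin N → Bool, Real.exp (β * dot x (vh2 s))) *
        (∑ t : Fin N → Bool, Real.exp (β' * dot x (vh2 t))) := by
    rw [ZE_univ, Fintype.prod_prod_type, Fintype.prod_unique, Fin.prod_univ_two]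
    show Z1 (β / Real.sqrt 2) x * Z1 (β' / Real.sqrt 2) x = _
    unfold Z1
    simp only [W_wt]
  have h2 : ZE (beN (β / Real.sqrt 2) (β' / Real.sqrt 2) Unit) (farU N ε) x =
      ∑ s : Fin N → Bool, ∑ t : Fin N → Bool,
        if ε ≤ |(∑ i, sg (s i) * sg (t i)) / (N : ℝ)| then
          Real.exp (β * dot x (vh2 s)) * Real.exp (β' * dot x (vh2 t)) else 0 := by
    rw [ZE_eq]
    unfold farU
    rw [Finset.sum_filter, ← Fintype.sum_prod_type' (f := fun s t =>
      if ε ≤ |(∑ i, sg (s i) * sg (t i)) / (N : ℝ)| then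
          Real.exp (β * dot x (vh2 s)) * Real.exp (β' * dot x (vh2 t)) else 0)]
    refine Fintype.sum_equiv (W_e N) _ _ fun ρ => ?_
    rw [W_prod _ _ (fun b s => wt b x s), W_wt, W_wt]
    rfl
  rw [h1, h2]
  rfl

/-- the frozen integral -/
theorem frozen_eq (β β' ε : ℝ) (N : ℕ) (hN : 0 < N) :
    (∫ g : Fin N → Fin N → ℝ,
        (∑ σ ∈ Fintype.piFinset (fun _ : Fin N => ({-1, 1} : Finset ℝ)),
          ∑ τ ∈ Fintype.piFinset (fun _ : Fin N => ({-1, 1} : Finset ℝ)),
            if ε ≤ |(∑ i, σ i * τ i) / (N : ℝ)| then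
              Real.exp (β * ((∑ i, ∑ j, if i < j then g i j * σ i * σ j else 0) / Real.sqrt N)) *
              Real.exp (β' * ((∑ i, ∑ j, if i < j then g i j * τ i * τ j else 0) / Real.sqrt N))
            else 0) /
        ((∑ σ ∈ Fintype.piFinset (fun _ : Fin N => ({-1, 1} : Finset ℝ)),
            Real.exp (β * ((∑ i, ∑ j, if i < j then g i j * σ i * σ j else 0) / Real.sqrt N))) *
         (∑ τ ∈ Fintype.piFinset (fun _ : Fin N => ({-1, 1} : Finset ℝ)),
            Real.exp (β' * ((∑ i, ∑ j, if i < j then g i j * τ i * τ j else 0) / Real.sqrt N))))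
      ∂(MeasureTheory.Measure.pi (fun _ : Fin N =>
          MeasureTheory.Measure.pi (fun _ : Fin N => ProbabilityTheory.gaussianReal 0 1)))) =
      ∫ x, ZE (beN (β / Real.sqrt 2) (β' / Real.sqrt 2) Unit) (farU N ε) x /
        ZE (beN (β / Real.sqrt 2) (β' / Real.sqrt 2) Unit) Finset.univ x ∂(gam (Fin N × Fin N)) := by
  have hFm := W5 (N := N) β β' ε
  -- continuity of the fields
  have hc1 : Continuous (fun (g : Fin N → Fin N → ℝ) (s : Fin N → Bool) => Xf g s) := by
    refine continuous_pi (fun s => ?_)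
    unfold Xf
    refine Continuous.div_const (continuous_finsetSum _ (fun i _ => continuous_finsetSum _ (fun j _ => ?_))) _
    by_cases hij : i < j
    · simp only [hij, if_true]
      fun_prop
    · simp only [hij, if_false]
      fun_prop
  have hcd : ∀ {ι : Type} [Fintype ι] (v : (Fin N → Bool) → ι → ℝ),
      Continuous (fun (x : ι → ℝ) (s : Fin N → Bool) => dot x (v s)) :=
    fun v => continuous_pi (fun s => SKC.I.continuous_dot (v s))
  -- left side over `gam`
  have e1 : (∫ g : Fin N → Fin N → ℝ, Fr β β' ε (Xf g) ∂(MeasureTheory.Measure.pi (fun _ : Fin N =>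
          MeasureTheory.Measure.pi (fun _ : Fin N => ProbabilityTheory.gaussianReal 0 1)))) =
      ∫ x : Fin N × Fin N → ℝ, Fr β β' ε (fun s => dot x (vX s)) ∂(gam (Fin N × Fin N)) := by
    rw [← W4 N, integral_map]
    · refine integral_congr_ae (Eventually.of_forall (fun x => ?_))
      simp only
      congr 1
      funext s
      unfold Xf dot vX
      rw [Finset.sum_div, Fintype.sum_prod_type]
      refine Finset.sum_congr rfl (fun i _ => ?_)
      rw [Finset.sum_div]
      refine Finset.sum_congr rfl (fun j _ => ?_)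
      by_cases hij : i < j
      · simp only [hij, if_true]
        ring
      · simp only [hij, if_false]
        ring
    · exact (measurable_pi_lambda _ (fun i => measurable_pi_lambda _ (fun j =>
        measurable_pi_apply _))).aemeasurable
    · exact (hFm.comp hc1).aestronglyMeasurable
  -- the field with an additional coordinate
  let v1 : (Fin N → Bool) → (Fin N × Fin N) ⊕ Unit → ℝ := fun s => Sum.elim (vX s) (fun _ => 0)
  let v2 : (Fin N → Bool) → (Fin N × Fin N) ⊕ Unit → ℝ := fun s =>
    Sum.elim (vX s) (fun _ => 1 / Real.sqrt 2)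
  have e2 : (∫ x : Fin N × Fin N → ℝ, Fr β β' ε (fun s => dot x (vX s)) ∂(gam (Fin N × Fin N))) =
      ∫ x : (Fin N × Fin N) ⊕ Unit → ℝ, Fr β β' ε (fun s => dot x (v1 s)) ∂(gam _) := by
    have h := gam_map_field_eq (fun s : Fin N → Bool => vX s) v1 (by
      intro s t
      simp [dot, v1, Fintype.sum_sum_type])
    have h1 : ∫ y, Fr β β' ε y ∂((gam (Fin N × Fin N)).map (fun x (s : Fin N → Bool) => dot x (vX s))) =
        ∫ y, Fr β β' ε y ∂((gam ((Fin N × Fin N) ⊕ Unit)).map (fun x s => dot x (v1 s))) := by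
      rw [h]
    rw [integral_map (hcd _).aemeasurable hFm.aestronglyMeasurable,
      integral_map (hcd _).aemeasurable hFm.aestronglyMeasurable] at h1
    exact h1
  have e3 : (∫ x : (Fin N × Fin N) ⊕ Unit → ℝ, Fr β β' ε (fun s => dot x (v1 s)) ∂(gam _)) =
      ∫ x : (Fin N × Fin N) ⊕ Unit → ℝ, Fr β β' ε (fun s => dot x (v2 s)) ∂(gam _) := by
    refine integral_congr_ae (Eventually.of_forall (fun x => ?_))
    simp only
    rw [← W2 β β' ε (fun s => dot x (v1 s)) (x (Sum.inr ()) * (1 / Real.sqrt 2))]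
    congr 1
    funext s
    simp [dot, v1, v2, Fintype.sum_sum_type]
  have e4 : (∫ x : (Fin N × Fin N) ⊕ Unit → ℝ, Fr β β' ε (fun s => dot x (v2 s)) ∂(gam _)) =
      ∫ x : Fin N × Fin N → ℝ, Fr β β' ε (fun s => dot x (vh2 s)) ∂(gam _) := by
    have h := gam_map_field_eq v2 (fun s : Fin N → Bool => vh2 s) (by
      intro s t
      rw [← W3 hN s t]
      simp only [dot, v2, Fintype.sum_sum_type, Sum.elim_inl, Sum.elim_inr]
      congr 1
      have h2 : Real.sqrt 2 ≠ 0 := by positivity
      have h3 : Real.sqrt 2 * Real.sqrt 2 = 2 := Real.mul_self_sqrt (by norm_num)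
      simp only [Finset.univ_unique, Finset.sum_singleton]
      rw [div_mul_div_comm, h3]
      norm_num)
    have h1 : ∫ y, Fr β β' ε y ∂((gam ((Fin N × Fin N) ⊕ Unit)).map (fun x s => dot x (v2 s))) =
        ∫ y, Fr β β' ε y ∂((gam (Fin N × Fin N)).map (fun x (s : Fin N → Bool) => dot x (vh2 s))) := by
      rw [h]
    rw [integral_map (hcd _).aemeasurable hFm.aestronglyMeasurable,
      integral_map (hcd _).aemeasurable hFm.aestronglyMeasurable] at h1
    exact h1
  rw [integral_congr_ae (Eventually.of_forall (fun g => W1 β β' ε g)), e1, e2, e3, e4]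
  exact integral_congr_ae (Eventually.of_forall (fun x => (W6 β β' ε x).symm))

end SKC.C
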