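import Pool.Agent.H.MP_08eaf3_pr.C.U
import Pool.Agent.H.MP_08eaf3_pr.C.Gibbs
import Pool.Agent.H.MP_08eaf3_pr.C.W

/-!
# Part C: reduction of chaos to `U = {0}`
-/

set_option autoImplicit false

open MeasureTheory ProbabilityTheory Filter Topology Matrix

namespace SKC.C

theorem far_small (b1 b2 : ℝ) (hb1 : 0 ≤ b1) (hb2 : 0 ≤ b2)
    (hP1 : Tendsto (FN b1) atTop (𝓝 (Fo b1))) (hP2 : Tendsto (FN b2) atTop (𝓝 (Fo b2)))
    (hU : ∀ u : ℝ, memU b1 b2 u → u = 0) (ε : ℝ) (hε : 0 < ε) :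
    Tendsto (fun N : ℕ => ∫ x, ZE (beN b1 b2 Unit) (farU N ε) x /
      ZE (beN b1 b2 Unit) Finset.univ x ∂(gam (Fin N × Fin N))) atTop (𝓝 0) := by
  classical
  have hP : ∀ c : Unit × Fin 2, Tendsto (FN (beN b1 b2 Unit c)) atTop (𝓝 (Fo (beN b1 b2 Unit c))) := by
    rintro ⟨⟨⟩, c⟩
    fin_cases c
    · exact hP1
    · exact hP2
  let S : Set ℝ := {u | ε ≤ |u| ∧ |u| ≤ 1}
  have hScl : IsClosed S :=
    (isClosed_le continuous_const continuous_abs).inter (isClosed_le continuous_abs continuous_const)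
  have hScomp : IsCompact S :=
    isCompact_Icc.of_isClosed_subset hScl (fun u hu => abs_le.1 hu.2)
  have hne : ∀ u : ℝ, ∃ e : ℝ, 0 < e ∧ (u ∈ S → ¬ FullK (beN b1 b2 Unit) (fun N => nearU N u e)) := by
    intro u
    by_cases hu : u ∈ S
    · have h1 : ¬ memU b1 b2 u := by
        intro h2
        have h3 := hU u h2
        have h4 : ε ≤ |u| := hu.1
        rw [h3, abs_zero] at h4
        linarith
      rw [memU_iff] at h1
      push Not at h1
      obtain ⟨e, he, h2⟩ := h1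
      exact ⟨e, he, fun _ => h2⟩
    · exact ⟨1, one_pos, fun h => absurd h hu⟩
  choose e he hnf using hne
  obtain ⟨T, hTS, hcov⟩ := hScomp.elim_nhds_subcover (fun u => Metric.ball u (e u))
    (fun u _ => Metric.ball_mem_nhds u (he u))
  have hlim : Tendsto (fun N : ℕ => ∑ u ∈ T, ∫ x, ZE (beN b1 b2 Unit) (nearU N u (e u)) x /
      ZE (beN b1 b2 Unit) Finset.univ x ∂(gam (Fin N × Fin N))) atTop (𝓝 0) := by
    have h1 := tendsto_finsetSum T (fun u hu => gibbs_small (beN b1 b2 Unit)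
      (beN_nonneg hb1 hb2) hP (fun N => nearU N u (e u)) (hnf u (hTS u hu)))
    simpa using h1
  refine tendsto_of_tendsto_of_tendsto_of_le_of_le' tendsto_const_nhds hlim
    (Eventually.of_forall (fun N => integral_nonneg (fun x => ratio_nonneg _ _ x))) ?_
  filter_upwards [eventually_gt_atTop 0] with N hN
  rw [← integral_finsetSum _ (fun u _ => integrable_ratio _ _)]
  refine integral_mono (integrable_ratio _ _) (integrable_finsetSum _ (fun u _ =>
    integrable_ratio _ _)) (fun x => ?_)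
  have h1 : ZE (beN b1 b2 Unit) (farU N ε) x ≤
      ∑ u ∈ T, ZE (beN b1 b2 Unit) (nearU N u (e u)) x := by
    refine ZE_cover _ T (farU N ε) (fun u => nearU N u (e u)) (fun ρ hρ => ?_) x
    have h2 : ε ≤ |ov ρ ρ ((), (0 : Fin 2)) ((), (1 : Fin 2))| := by
      unfold farU at hρ
      exact (Finset.mem_filter.1 hρ).2
    have h3 : ov ρ ρ ((), (0 : Fin 2)) ((), (1 : Fin 2)) ∈ S := ⟨h2, abs_ov_le _ _ _ _⟩
    obtain ⟨u, hu, hru⟩ := Set.mem_iUnion₂.1 (hcov h3)
    rw [Metric.mem_ball, Real.dist_eq] at hru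
    exact ⟨u, hu, (mem_nearU hN u _ (he u).le ρ).2 hru.le⟩
  simp only
  rw [← Finset.sum_div]
  exact div_le_div_of_nonneg_right h1 (ZE_nonneg _ _ _)

end SKC.C
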