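import Pool.Agent.H.MP_08eaf3_pr.C.Base
import Pool.Agent.H.MP_08eaf3_pr.IfB

/-!
# Part C: restriction to some of the coordinates, and `FN ≤ Fo`
-/

set_option autoImplicit false

open MeasureTheory ProbabilityTheory Filter Topology Matrix

namespace SKC.C

variable {K K1 K2 : Type} {N : ℕ}

/-- restriction of a configuration -/
def res (i : K1 → K) (ρ : Cfg K N) : Cfg K1 N := fun n c => ρ n (i c)

theorem ov_res (i : K1 → K) (ρ ρ' : Cfg K N) (c c' : K1) :
    ov (res i ρ) (res i ρ') c c' = ov ρ ρ' (i c) (i c') := rfl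

theorem row_res (i : K1 → K) (ρ : Cfg K N) (c : K1) : row (res i ρ) c = row ρ (i c) := rfl

/-- pointwise decoupling -/
theorem ZE_split [Fintype K] [Fintype K1] [Fintype K2] [DecidableEq K2] (β : K → ℝ) (e : K1 ⊕ K2 ≃ K)
    (E : Finset (Cfg K N)) (E1 : Finset (Cfg K1 N))
    (h : ∀ ρ ∈ E, res (fun c => e (Sum.inl c)) ρ ∈ E1) (x : Fin N × Fin N → ℝ) :
    ZE β E x ≤ ZE (fun c => β (e (Sum.inl c))) E1 x * ∏ c : K2, Z1 (β (e (Sum.inr c))) x := by
  classical
  let φ : Cfg K N → Cfg K1 N × Cfg K2 N := fun ρ =>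
    (res (fun c => e (Sum.inl c)) ρ, res (fun c => e (Sum.inr c)) ρ)
  have hφ : Function.Injective φ := by
    intro ρ ρ' hh
    simp only [φ, Prod.mk.injEq] at hh
    funext n c
    obtain ⟨d, rfl⟩ := e.surjective c
    rcases d with d | d
    · exact congrFun (congrFun hh.1 n) d
    · exact congrFun (congrFun hh.2 n) d
  let g : Cfg K1 N × Cfg K2 N → ℝ := fun p =>
    (∏ c, wt (β (e (Sum.inl c))) x (row p.1 c)) * ∏ c, wt (β (e (Sum.inr c))) x (row p.2 c)
  have e1 : ZE β E x = ∑ ρ ∈ E, g (φ ρ) := by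
    rw [ZE_eq]
    refine Finset.sum_congr rfl (fun ρ _ => ?_)
    rw [← Equiv.prod_comp e, Fintype.prod_sum_type]
    rfl
  have e2 : ∑ ρ ∈ E, g (φ ρ) = ∑ p ∈ E.image φ, g p :=
    (Finset.sum_image (fun a _ b _ hab => hφ hab)).symm
  have e3 : ∑ p ∈ E.image φ, g p ≤ ∑ p ∈ E1 ×ˢ (Finset.univ : Finset (Cfg K2 N)), g p := by
    apply Finset.sum_le_sum_of_subset_of_nonneg
    · intro p hp
      obtain ⟨ρ, hρ, rfl⟩ := Finset.mem_image.1 hp
      exact Finset.mem_product.2 ⟨h ρ hρ, Finset.mem_univ _⟩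
    · intro p _ _
      exact mul_nonneg (Finset.prod_nonneg (fun _ _ => (wt_pos _ _ _).le))
        (Finset.prod_nonneg (fun _ _ => (wt_pos _ _ _).le))
  have e4 : ∑ p ∈ E1 ×ˢ (Finset.univ : Finset (Cfg K2 N)), g p =
      ZE (fun c => β (e (Sum.inl c))) E1 x * ∏ c : K2, Z1 (β (e (Sum.inr c))) x := by
    rw [Finset.sum_product, ZE_eq, ← ZE_univ (fun c => β (e (Sum.inr c))), ZE_eq, Finset.sum_mul_sum]
  rw [e1, e2]
  exact e3.trans e4.le

theorem EL_split [Fintype K] [Fintype K1] [Fintype K2] [DecidableEq K2] (β : K → ℝ)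
    (e : K1 ⊕ K2 ≃ K) (hN : 0 < N)
    {E : Finset (Cfg K N)} (hE : E.Nonempty) (E1 : Finset (Cfg K1 N))
    (h : ∀ ρ ∈ E, res (fun c => e (Sum.inl c)) ρ ∈ E1) :
    EL E (vH β N) (fun _ => 0) ≤ EL E1 (vH (fun c => β (e (Sum.inl c))) N) (fun _ => 0) +
      N * ∑ c : K2, FN (β (e (Sum.inr c))) N := by
  have hE1 : E1.Nonempty := by
    obtain ⟨ρ, hρ⟩ := hE
    exact ⟨_, h ρ hρ⟩
  rw [EL_eq, EL_eq, Finset.mul_sum]
  have h2 : ∑ c : K2, (N : ℝ) * FN (β (e (Sum.inr c))) N =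
      ∫ x : Fin N × Fin N → ℝ, ∑ c : K2, Real.log (Z1 (β (e (Sum.inr c))) x)
        ∂(gam (Fin N × Fin N)) := by
    rw [integral_finsetSum _ (fun c _ => integrable_log_Z1 _)]
    exact Finset.sum_congr rfl (fun c _ => N_mul_FN _ hN)
  rw [h2, ← integral_add (integrable_log_ZE _ hE1)
    (integrable_finsetSum _ (fun c _ => integrable_log_Z1 _))]
  refine integral_mono (integrable_log_ZE β hE) ((integrable_log_ZE _ hE1).add
    (integrable_finsetSum _ (fun c _ => integrable_log_Z1 _))) (fun x => ?_)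
  have h3 := Real.log_le_log (ZE_pos β hE x) (ZE_split β e E E1 h x)
  rw [Real.log_mul (ZE_pos _ hE1 x).ne' (Finset.prod_pos (fun c _ => Z1_pos _ x)).ne',
    Real.log_prod (fun c _ => (Z1_pos _ x).ne')] at h3
  exact h3

/-- the Parisi infimum is an upper bound (Guerra) -/
theorem FN_le_Fo (b : ℝ) (hb : 0 ≤ b) (hN : 0 < N) : FN b N ≤ Fo b := by
  unfold Fo
  have hN0 : (0 : ℝ) < N := by exact_mod_cast hN
  apply le_csInf
  · refine ⟨_, [((1 : ℝ), (1 : Matrix Unit Unit ℝ))], ⟨?_, ?_, ?_⟩, ?_, rfl⟩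
    · simp
    · simp
    · exact ⟨[], 1, rfl⟩
    · simp [Qtot]
  · rintro y ⟨l, hl, hQ, rfl⟩
    have h := guerra (fun _ : Unit => b) (fun _ => hb) (fun _ => 0) 0 l hl 0 le_rfl N hN
      (Finset.univ : Finset (Cfg Unit N)) Finset.univ_nonempty (by
        intro ρ _ c c'
        rw [hQ, Subsingleton.elim c' c, ov_self ρ hN, Matrix.one_apply_eq]
        simp)
    simp only [zero_mul] at h
    unfold FN
    rw [div_le_iff₀ hN0]
    linarith

end SKC.C
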