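import Pool.Agent.H.MP_08eaf3_pr.C.U
import Pool.Agent.H.MP_08eaf3_pr.C.Blow
import Pool.Agent.H.MP_08eaf3_pr.C.Comb

/-!
# Part C: blow-up of a star (I3), the tree
-/

set_option autoImplicit false

open MeasureTheory ProbabilityTheory Filter Topology Matrix

namespace SKC.C

/-- index map of the sub-blocks -/
def idx (n k n0 k0 : ℕ) (h0 : 0 < 1) (e : Fin n → Fin n0) (S : Fin n → Fin k → Fin k0)
    (p : (Fin n × Fin k) × Fin 2) : ((Fin n0 × Fin 1) × Fin 2) × Fin k0 :=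
  (((e p.1.1, ⟨0, h0⟩), p.2), S p.1.1 p.1.2)

theorem idx_inj {n k n0 k0 : ℕ} {h0 : 0 < 1} {e : Fin n → Fin n0} {S : Fin n → Fin k → Fin k0}
    (he : Function.Injective e) (hS : ∀ a, Function.Injective (S a)) :
    Function.Injective (idx n k n0 k0 h0 e S) := by
  rintro ⟨⟨a, x⟩, d⟩ ⟨⟨a', x'⟩, d'⟩ h
  simp only [idx, Prod.mk.injEq] at h
  obtain ⟨⟨⟨h1, -⟩, h2⟩, h3⟩ := h
  have h4 := he h1
  subst h4
  rw [hS a h3, h2]

theorem blow_ov {K : Type} [Fintype K] [DecidableEq K] {N k : ℕ} {D : Matrix K K ℝ} {ε : ℝ}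
    {ρ : Cfg (K × Fin k) N} (h : ρ ∈ blow (near (N := N) D ε) k) {P P' : K} (hP : P ≠ P')
    (j j' : Fin k) : |ov ρ ρ (P, j) (P', j') - D P P'| ≤ ε := by
  have h1 := (mem_blow _ _ _).1 h (Function.update (fun _ => j') P j)
  rw [mem_near] at h1
  have h2 := h1 P P'
  rw [ov_res] at h2
  simp only [Function.update_self, Function.update_of_ne hP.symm] at h2
  exact h2

/-- the overlaps of the chosen sub-blocks -/
theorem star_check {n k n0 k0 N : ℕ} (hN : 0 < N) (h0 : 0 < 1) (u ε : ℝ) (hε : 0 < ε)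
    (Q : Matrix (Fin 2) (Fin 2) ℝ) (e : Fin n → Fin n0) (S : Fin n → Fin k → Fin k0)
    (he : Function.Injective e) (c1 c2 : ℝ)
    (ρ : Cfg (((Fin n0 × Fin 1) × Fin 2) × Fin k0) N)
    (hρ : ρ ∈ blow (near (N := N) (treeM n0 1 u Q Q) ε) k0)
    (h1 : ∀ a x x', x ≠ x' →
      |ov ρ ρ (((e a, ⟨0, h0⟩), 0), S a x) (((e a, ⟨0, h0⟩), 0), S a x') - c1| ≤ ε)
    (h2 : ∀ a x x', x ≠ x' →
      |ov ρ ρ (((e a, ⟨0, h0⟩), 1), S a x) (((e a, ⟨0, h0⟩), 1), S a x') - c2| ≤ ε) :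
    res (idx n k n0 k0 h0 e S) ρ ∈ near (N := N) (treeM n k u Q (mat c1 c2 u)) ε := by
  rw [mem_near]
  rintro ⟨⟨a, x⟩, d⟩ ⟨⟨a', x'⟩, d'⟩
  rw [ov_res]
  simp only [idx]
  by_cases haa : a = a'
  · subst haa
    by_cases hdd : d = d'
    · subst hdd
      by_cases hxx : x = x'
      · subst hxx
        have e1 : treeM n k u Q (mat c1 c2 u) ((a, x), d) ((a, x), d) = 1 := by
          unfold treeM treeG mat
          fin_cases d <;> simp
        rw [e1, ov_self ρ hN]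
        simpa using hε.le
      · have e1 : treeM n k u Q (mat c1 c2 u) ((a, x), d) ((a, x'), d) = mat c1 c2 u d d := by
          unfold treeM treeG
          simp [hxx]
        rw [e1]
        fin_cases d
        · simpa [mat] using h1 a x x' hxx
        · simpa [mat] using h2 a x x' hxx
    · have h4 := blow_ov hρ (P := ((e a, ⟨0, h0⟩), d)) (P' := ((e a, ⟨0, h0⟩), d'))
        (by simp [hdd]) (S a x) (S a x')
      have e1 : treeM n0 1 u Q Q ((e a, ⟨0, h0⟩), d) ((e a, ⟨0, h0⟩), d') = u := by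
        unfold treeM treeG mat
        fin_cases d <;> fin_cases d' <;> simp_all
      have e2 : treeM n k u Q (mat c1 c2 u) ((a, x), d) ((a, x'), d') = u := by
        unfold treeM treeG mat
        by_cases hxx : x = x'
        · fin_cases d <;> fin_cases d' <;> simp_all
        · fin_cases d <;> fin_cases d' <;> simp_all
      rw [e1] at h4
      rw [e2]
      exact h4
  · have hne : e a ≠ e a' := fun h' => haa (he h')
    have h4 := blow_ov hρ (P := ((e a, ⟨0, h0⟩), d)) (P' := ((e a', ⟨0, h0⟩), d'))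
        (by simp [hne]) (S a x) (S a' x')
    have e1 : treeM n0 1 u Q Q ((e a, ⟨0, h0⟩), d) ((e a', ⟨0, h0⟩), d') = Q d d' := by
      unfold treeM treeG
      simp [hne]
    have e2 : treeM n k u Q (mat c1 c2 u) ((a, x), d) ((a', x'), d') = Q d d' := by
      unfold treeM treeG
      simp [haa]
    rw [e1] at h4
    rw [e2]
    exact h4

/-- colour classes -/
noncomputable def Gset (n k n0 k0 : ℕ) (h0 : 0 < 1) (u ε : ℝ) (Q : Matrix (Fin 2) (Fin 2) ℝ)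
    (t : Finset ℝ) (T : (Fin n → Fin n0) × (Fin n → Fin k → Fin k0) × (t × t)) (N : ℕ) :
    Finset (Cfg (((Fin n0 × Fin 1) × Fin 2) × Fin k0) N) := by
  classical
  exact Finset.univ.filter (fun ρ => Function.Injective T.1 ∧ (∀ a, Function.Injective (T.2.1 a)) ∧
      res (idx n k n0 k0 h0 T.1 T.2.1) ρ ∈
        near (N := N) (treeM n k u Q (mat (T.2.2.1 : ℝ) (T.2.2.2 : ℝ) u)) ε)

theorem mem_Gset (n k n0 k0 : ℕ) (h0 : 0 < 1) (u ε : ℝ) (Q : Matrix (Fin 2) (Fin 2) ℝ)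
    (t : Finset ℝ) (T : (Fin n → Fin n0) × (Fin n → Fin k → Fin k0) × (t × t)) (N : ℕ)
    (ρ : Cfg (((Fin n0 × Fin 1) × Fin 2) × Fin k0) N) :
    ρ ∈ Gset n k n0 k0 h0 u ε Q t T N ↔
      Function.Injective T.1 ∧ (∀ a, Function.Injective (T.2.1 a)) ∧
      res (idx n k n0 k0 h0 T.1 T.2.1) ρ ∈
        near (N := N) (treeM n k u Q (mat (T.2.2.1 : ℝ) (T.2.2.2 : ℝ) u)) ε := by
  classical
  unfold Gset
  rw [Finset.mem_filter]
  exact and_iff_right (Finset.mem_univ _)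

theorem tree_eps (b1 b2 u : ℝ) (hb1 : 0 ≤ b1) (hb2 : 0 ≤ b2) (Q : Matrix (Fin 2) (Fin 2) ℝ)
    (h : TreeFull b1 b2 u Q Q) (n k : ℕ) (ε : ℝ) (hε : 0 < ε) :
    ∃ q : ℝ × ℝ, q ∈ Set.Icc (-1 : ℝ) 1 ×ˢ Set.Icc (-1 : ℝ) 1 ∧
      FullK (beN b1 b2 (Fin n × Fin k)) (fun N => near (N := N) (treeM n k u Q (mat q.1 q.2 u)) ε) := by
  classical
  obtain ⟨t, ht, hcell⟩ := grid ε hε
  have hcell' : ∀ r : ℝ, ∃ x : t, r ∈ Set.Icc (-1 : ℝ) 1 → |r - x| ≤ ε := by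
    intro r
    by_cases hr : r ∈ Set.Icc (-1 : ℝ) 1
    · obtain ⟨x, hx, hx'⟩ := hcell r hr
      exact ⟨⟨x, hx⟩, fun _ => hx'⟩
    · obtain ⟨x, hx, -⟩ := hcell 0 (by norm_num)
      exact ⟨⟨x, hx⟩, fun h' => absurd h' hr⟩
  choose cell hc using hcell'
  have htne : Nonempty t := ⟨cell 0⟩
  obtain ⟨n0, k0, hn0, hcomb⟩ := comb (t × t) n k
  have h0 : (0 : ℕ) < 1 := one_pos
  have h1 := (full_iff b1 b2 _).1 (h n0 1 hn0 one_pos ε hε)
  have h2 := h1.blow (beN_nonneg hb1 hb2) k0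
  have h3 : ∀ᶠ N : ℕ in atTop, ∀ ρ ∈ blow (near (N := N) (treeM n0 1 u Q Q) ε) k0,
      ∃ T, ρ ∈ Gset n k n0 k0 h0 u ε Q t T N := by
    refine (eventually_gt_atTop 0).mono (fun N hN ρ hρ => ?_)
    let f : Fin n0 → Fin k0 → Fin k0 → t × t := fun a x y =>
      (cell (ov ρ ρ (((a, ⟨0, h0⟩), 0), x) (((a, ⟨0, h0⟩), 0), y)),
        cell (ov ρ ρ (((a, ⟨0, h0⟩), 1), x) (((a, ⟨0, h0⟩), 1), y)))
    obtain ⟨e, S, c, he, hS, hf⟩ := hcomb f (fun a x y => by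
      simp only [f]
      rw [ov_symm ρ ρ (((a, ⟨0, h0⟩), 0), x), ov_symm ρ ρ (((a, ⟨0, h0⟩), 1), x)])
    have hI : ∀ c c', ov ρ ρ c c' ∈ Set.Icc (-1 : ℝ) 1 :=
      fun c c' => abs_le.1 (abs_ov_le ρ ρ c c')
    refine ⟨(e, S, c), (mem_Gset _ _ _ _ _ _ _ _ _ _ _ _).2 ⟨he, hS, ?_⟩⟩
    refine star_check hN h0 u ε hε Q e S he _ _ ρ hρ ?_ ?_
    · intro a x x' hxx
      have h4 := hf a x x' hxx
      have h5 : cell (ov ρ ρ (((e a, ⟨0, h0⟩), 0), S a x) (((e a, ⟨0, h0⟩), 0), S a x')) = c.1 :=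
        congrArg Prod.fst h4
      have h7 := hc _ (hI (((e a, ⟨0, h0⟩), 0), S a x) (((e a, ⟨0, h0⟩), 0), S a x'))
      rw [h5] at h7
      exact h7
    · intro a x x' hxx
      have h4 := hf a x x' hxx
      have h5 : cell (ov ρ ρ (((e a, ⟨0, h0⟩), 1), S a x) (((e a, ⟨0, h0⟩), 1), S a x')) = c.2 :=
        congrArg Prod.snd h4
      have h7 := hc _ (hI (((e a, ⟨0, h0⟩), 1), S a x) (((e a, ⟨0, h0⟩), 1), S a x'))
      rw [h5] at h7
      exact h7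
  have hE : ∃ T, FullK (fun p : ((Fin n0 × Fin 1) × Fin 2) × Fin k0 =>
      beN b1 b2 (Fin n0 × Fin 1) p.1) (fun N => Gset n k n0 k0 h0 u ε Q t T N) := by
    refine FullK.color (C := (Fin n → Fin n0) × (Fin n → Fin k → Fin k0) × (t × t))
      (E := fun N => SKC.C.blow (near (N := N) (treeM n0 1 u Q Q) ε) k0)
      (G := fun T N => Gset n k n0 k0 h0 u ε Q t T N) ?_ ?_ ?_
    · exact (fun p => beN_nonneg hb1 hb2 p.1)
    · exact h2
    · exact h3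
  obtain ⟨T, hT⟩ := hE
  obtain ⟨N, ⟨ρ, hρ⟩, -⟩ := (hT 1 one_pos).exists
  obtain ⟨he, hS, -⟩ := (mem_Gset _ _ _ _ _ _ _ _ _ _ _ _).1 hρ
  refine ⟨((T.2.2.1 : ℝ), (T.2.2.2 : ℝ)), ⟨ht _ T.2.2.1.2, ht _ T.2.2.2.2⟩, ?_⟩
  have hβ : ∀ p : ((Fin n0 × Fin 1) × Fin 2) × Fin k0,
      0 ≤ (fun p : ((Fin n0 × Fin 1) × Fin 2) × Fin k0 => beN b1 b2 (Fin n0 × Fin 1) p.1) p :=
    fun p => beN_nonneg hb1 hb2 p.1
  have h5 : FullK (fun c => beN b1 b2 (Fin n0 × Fin 1) ((idx n k n0 k0 h0 T.1 T.2.1) c).1)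
      (fun N => near (N := N) (treeM n k u Q (mat (T.2.2.1 : ℝ) (T.2.2.2 : ℝ) u)) ε) := by
    refine FullK.restrict (K := ((Fin n0 × Fin 1) × Fin 2) × Fin k0) (K1 := (Fin n × Fin k) × Fin 2)
      hβ hT (idx n k n0 k0 h0 T.1 T.2.1) ?_ ?_
    · exact idx_inj he hS
    · exact Eventually.of_forall (fun N ρ hρ => ((mem_Gset n k n0 k0 h0 u ε Q t T N ρ).1 hρ).2.2)
  exact h5

/-- the tree of I3 -/
theorem tree_full (b1 b2 u : ℝ) (hb1 : 0 ≤ b1) (hb2 : 0 ≤ b2) (Q : Matrix (Fin 2) (Fin 2) ℝ)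
    (h : TreeFull b1 b2 u Q Q) : ∃ q1 q2 : ℝ, TreeFull b1 b2 u Q (mat q1 q2 u) := by
  have hm : ∀ m : ℕ, ∃ q : ℝ × ℝ, q ∈ Set.Icc (-1 : ℝ) 1 ×ˢ Set.Icc (-1 : ℝ) 1 ∧
      FullK (beN b1 b2 (Fin (m + 1) × Fin (m + 1)))
        (fun N => near (N := N) (treeM (m + 1) (m + 1) u Q (mat q.1 q.2 u)) (1 / ((m : ℝ) + 1))) :=
    fun m => tree_eps b1 b2 u hb1 hb2 Q h (m + 1) (m + 1) _ (by positivity)
  choose q hq hF using hm
  obtain ⟨q0, -, φ, hφ, hlim⟩ := (isCompact_Icc.prod isCompact_Icc).tendsto_subseq hq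
  refine ⟨q0.1, q0.2, fun n k hn hk ε hε => ?_⟩
  rw [full_iff]
  have hl1 : ∀ᶠ m : ℕ in atTop, |(q (φ m)).1 - q0.1| ≤ ε / 2 := by
    have h1 := (continuous_fst.tendsto q0).comp hlim
    filter_upwards [Metric.tendsto_nhds.1 h1 (ε / 2) (by positivity)] with m hm
    rw [Real.dist_eq] at hm
    exact hm.le
  have hl2 : ∀ᶠ m : ℕ in atTop, |(q (φ m)).2 - q0.2| ≤ ε / 2 := by
    have h1 := (continuous_snd.tendsto q0).comp hlim
    filter_upwards [Metric.tendsto_nhds.1 h1 (ε / 2) (by positivity)] with m hm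
    rw [Real.dist_eq] at hm
    exact hm.le
  have hl3 : ∀ᶠ m : ℕ in atTop, 1 / ((φ m : ℝ) + 1) ≤ ε / 2 := by
    have h1 : Tendsto (fun m : ℕ => 1 / ((φ m : ℝ) + 1)) atTop (𝓝 0) :=
      tendsto_one_div_add_atTop_nhds_zero_nat.comp hφ.tendsto_atTop
    exact (h1.eventually (gt_mem_nhds (show (0 : ℝ) < ε / 2 by positivity))).mono
      (fun m hm => hm.le)
  obtain ⟨m, hm1, hm2, hm3, hm4⟩ := (hl1.and (hl2.and (hl3.and
    (hφ.tendsto_atTop.eventually_ge_atTop (max n k))))).exists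
  have hn' : n ≤ φ m + 1 := (le_max_left n k).trans (hm4.trans (Nat.le_succ _))
  have hk' : k ≤ φ m + 1 := (le_max_right n k).trans (hm4.trans (Nat.le_succ _))
  let i : (Fin n × Fin k) × Fin 2 → (Fin (φ m + 1) × Fin (φ m + 1)) × Fin 2 := fun p =>
    ((Fin.castLE hn' p.1.1, Fin.castLE hk' p.1.2), p.2)
  have hi : Function.Injective i := by
    rintro ⟨⟨a, x⟩, d⟩ ⟨⟨a', x'⟩, d'⟩ hh
    simp only [i, Prod.mk.injEq, Fin.castLE_inj] at hh
    obtain ⟨⟨h1, h2⟩, h3⟩ := hh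
    rw [h1, h2, h3]
  have h5 := (hF (φ m)).restrict (beN_nonneg hb1 hb2)
    (E1 := fun N => near (N := N) (treeM n k u Q (mat q0.1 q0.2 u)) ε) i hi
    (Eventually.of_forall (fun N ρ hρ => by
      rw [mem_near] at hρ ⊢
      intro p p'
      rw [ov_res]
      have h6 := hρ (i p) (i p')
      have h7 : |treeM (φ m + 1) (φ m + 1) u Q (mat (q (φ m)).1 (q (φ m)).2 u) (i p) (i p') -
          treeM n k u Q (mat q0.1 q0.2 u) p p'| ≤ ε / 2 := by
        obtain ⟨⟨a, x⟩, d⟩ := p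
        obtain ⟨⟨a', x'⟩, d'⟩ := p'
        simp only [i, treeM, treeG, Prod.mk.injEq, Fin.castLE_inj]
        by_cases h8 : a = a' ∧ x = x'
        · simp only [h8, and_self, if_true, sub_self, abs_zero]
          positivity
        · simp only [h8, if_false]
          by_cases h9 : a = a'
          · simp only [h9, if_true]
            fin_cases d <;> fin_cases d'
            · simpa [mat] using hm1
            · simp [mat]; positivity
            · simp [mat]; positivity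
            · simpa [mat] using hm2
          · simp only [h9, if_false, sub_self, abs_zero]
            positivity
      have h8 : ov ρ ρ (i p) (i p') - treeM n k u Q (mat q0.1 q0.2 u) p p' =
          (ov ρ ρ (i p) (i p') -
            treeM (φ m + 1) (φ m + 1) u Q (mat (q (φ m)).1 (q (φ m)).2 u) (i p) (i p')) +
          (treeM (φ m + 1) (φ m + 1) u Q (mat (q (φ m)).1 (q (φ m)).2 u) (i p) (i p') -
            treeM n k u Q (mat q0.1 q0.2 u) p p') := by ring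
      rw [h8]
      exact (abs_add_le _ _).trans (by linarith)))
  exact h5

end SKC.C
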