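import Pool.Agent.H.MP_08eaf3_pr.C.FullK

/-!
# Part C: the set `U`
-/

set_option autoImplicit false

open MeasureTheory ProbabilityTheory Filter Topology Matrix

namespace SKC.C

theorem beN_nonneg {b1 b2 : ℝ} (hb1 : 0 ≤ b1) (hb2 : 0 ≤ b2) {J : Type} (c : J × Fin 2) :
    0 ≤ beN b1 b2 J c := by
  obtain ⟨j, d⟩ := c
  unfold beN be
  fin_cases d
  · exact hb1
  · exact hb2

/-- the constraint set of `memU` -/
noncomputable def nearU (N : ℕ) (u ε : ℝ) : Finset (Cfg (Unit × Fin 2) N) :=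
  near (N := N) (fun p p' => mat 1 1 u p.2 p'.2) ε

theorem memU_iff (b1 b2 u : ℝ) :
    memU b1 b2 u ↔ ∀ ε : ℝ, 0 < ε → FullK (beN b1 b2 Unit) (fun N => nearU N u ε) := by
  unfold memU
  exact forall_congr' (fun ε => imp_congr_right (fun _ => full_iff b1 b2 _))

theorem mem_nearU {N : ℕ} (hN : 0 < N) (u ε : ℝ) (hε : 0 ≤ ε) (ρ : Cfg (Unit × Fin 2) N) :
    ρ ∈ nearU N u ε ↔ |ov ρ ρ ((), 0) ((), 1) - u| ≤ ε := by
  unfold nearU
  rw [mem_near]
  constructor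
  · intro h
    exact h ((), 0) ((), 1)
  · rintro h ⟨⟨⟩, c⟩ ⟨⟨⟩, c'⟩
    fin_cases c <;> fin_cases c'
    · simpa [mat, ov_self ρ hN] using hε
    · simpa [mat] using h
    · rw [ov_symm] 
      simpa [mat] using h
    · simpa [mat, ov_self ρ hN] using hε

theorem memU_abs_le {b1 b2 u : ℝ} (h : memU b1 b2 u) : |u| ≤ 1 := by
  by_contra hu
  rw [not_le] at hu
  have hε : 0 < (|u| - 1) / 2 := by linarith
  obtain ⟨N, ⟨⟨ρ, hρ⟩, -⟩, hN⟩ := (((memU_iff b1 b2 u).1 h _ hε 1 one_pos).and_eventually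
    (eventually_gt_atTop 0)).exists
  rw [mem_nearU hN u _ hε.le] at hρ
  have h1 := abs_ov_le ρ ρ ((), (0 : Fin 2)) ((), (1 : Fin 2))
  have h2 : |u| ≤ |ov ρ ρ ((), (0 : Fin 2)) ((), (1 : Fin 2))| +
      |ov ρ ρ ((), (0 : Fin 2)) ((), (1 : Fin 2)) - u| := by
    have h3 : u = ov ρ ρ ((), (0 : Fin 2)) ((), (1 : Fin 2)) -
      (ov ρ ρ ((), (0 : Fin 2)) ((), (1 : Fin 2)) - u) := by ring
    calc |u| = |ov ρ ρ ((), (0 : Fin 2)) ((), (1 : Fin 2)) -
      (ov ρ ρ ((), (0 : Fin 2)) ((), (1 : Fin 2)) - u)| := by rw [← h3]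
      _ ≤ _ := abs_sub _ _
  linarith

theorem isClosed_memU (b1 b2 : ℝ) : IsClosed {u : ℝ | memU b1 b2 u} := by
  rw [← isOpen_compl_iff, Metric.isOpen_iff]
  intro v hv
  rw [Set.mem_compl_iff, Set.mem_ofPred_eq, memU_iff] at hv
  push Not at hv
  obtain ⟨ε, hε, hv⟩ := hv
  refine ⟨ε / 2, by positivity, fun w hw => ?_⟩
  rw [Set.mem_compl_iff, Set.mem_ofPred_eq, memU_iff]
  intro hw'
  apply hv
  refine (hw' (ε / 2) (by positivity)).mono ((eventually_gt_atTop 0).mono (fun N hN ρ hρ => ?_))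
  rw [mem_nearU hN _ _ (by positivity)] at hρ
  rw [mem_nearU hN _ _ hε.le]
  rw [Metric.mem_ball, Real.dist_eq] at hw
  have h3 : ov ρ ρ ((), (0 : Fin 2)) ((), (1 : Fin 2)) - v =
      (ov ρ ρ ((), (0 : Fin 2)) ((), (1 : Fin 2)) - w) + (w - v) := by ring
  rw [h3]
  exact (abs_add_le _ _).trans (by linarith)

/-- flip of the second configuration -/
def flip (N : ℕ) (ρ : Cfg (Unit × Fin 2) N) : Cfg (Unit × Fin 2) N :=
  fun i p => if p.2 = 1 then !(ρ i p) else ρ i p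

theorem sg_not (b : Bool) : sg (!b) = - sg b := by
  unfold sg
  cases b <;> simp

theorem flip_flip (N : ℕ) (ρ : Cfg (Unit × Fin 2) N) : flip N (flip N ρ) = ρ := by
  funext i p
  unfold flip
  split_ifs <;> simp

theorem memU_neg {b1 b2 u : ℝ} (h : memU b1 b2 u) : memU b1 b2 (-u) := by
  rw [memU_iff] at h ⊢
  intro ε hε
  have hx : FullK (beN b1 b2 Unit) (fun N => if 0 < N then nearU N u ε else ∅) := by
    refine (h ε hε).mono ((eventually_gt_atTop 0).mono (fun N hN => ?_))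
    simp only [hN, if_true]
    exact le_rfl
  refine hx.map flip (fun N => (Function.LeftInverse.injective (flip_flip N))) ?_ ?_
  · intro N ρ
    funext p
    unfold vH
    congr 1
    refine Finset.sum_congr rfl (fun c _ => ?_)
    unfold flip
    by_cases hc : c.2 = 1
    · simp only [hc, if_true, sg_not]
      ring
    · simp only [hc, if_false]
  · intro N ρ hρ
    by_cases hN : 0 < N
    · simp only [hN, if_true] at hρ
      rw [mem_nearU hN _ _ hε.le] at hρ ⊢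
      have h1 : ov (flip N ρ) (flip N ρ) ((), 0) ((), 1) = - ov ρ ρ ((), 0) ((), 1) := by
        unfold ov flip
        simp [sg_not, neg_div]
      rw [h1]
      have h2 : - ov ρ ρ ((), (0 : Fin 2)) ((), (1 : Fin 2)) - -u =
        -(ov ρ ρ ((), (0 : Fin 2)) ((), (1 : Fin 2)) - u) := by ring
      rw [h2, abs_neg]
      exact hρ
    · simp only [hN, if_false] at hρ
      exact absurd hρ (Finset.notMem_empty _)

/-- C3: if `U ≠ {0}` then `U` has a positive maximum, and it bounds `|v|` for all `v ∈ U` -/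
theorem exists_maxU (b1 b2 : ℝ) (h : ∃ u, u ≠ 0 ∧ memU b1 b2 u) :
    ∃ u, 0 < u ∧ u ≤ 1 ∧ memU b1 b2 u ∧ ∀ v, memU b1 b2 v → |v| ≤ u := by
  obtain ⟨u0, hu0, hm⟩ := h
  have hsub : {u : ℝ | memU b1 b2 u} ⊆ Set.Icc (-1) 1 := fun v hv => abs_le.1 (memU_abs_le hv)
  have hcomp : IsCompact {u : ℝ | memU b1 b2 u} :=
    isCompact_Icc.of_isClosed_subset (isClosed_memU b1 b2) hsub
  obtain ⟨w, hw, hmax⟩ := hcomp.exists_isMaxOn ⟨u0, hm⟩ (continuous_abs.continuousOn)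
  have hmax' : ∀ v, memU b1 b2 v → |v| ≤ |w| := fun v hv => hmax hv
  have hw' : memU b1 b2 w := hw
  refine ⟨|w|, ?_, memU_abs_le hw', ?_, hmax'⟩
  · exact lt_of_lt_of_le (abs_pos.2 hu0) (hmax' u0 hm)
  · rcases abs_choice w with h1 | h1
    · rw [h1]; exact hw'
    · rw [h1]; exact memU_neg hw'

/-- the cross overlap of a full star of pairs is in `U` -/
theorem memU_of_tree (b1 b2 u : ℝ) (hb1 : 0 < b1) (hb2 : 0 < b2)
    (Q Q' : Matrix (Fin 2) (Fin 2) ℝ) (h : TreeFull b1 b2 u Q Q') : memU b1 b2 (Q 0 1) := by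
  rw [memU_iff]
  intro ε hε
  have h1 := (full_iff b1 b2 _).1 (h 2 1 (by norm_num) one_pos ε hε)
  let i : Unit × Fin 2 → (Fin 2 × Fin 1) × Fin 2 := fun p => ((p.2, 0), p.2)
  have hi : Function.Injective i := by
    rintro ⟨⟨⟩, c⟩ ⟨⟨⟩, c'⟩ hcc
    simp only [i, Prod.mk.injEq] at hcc
    rw [hcc.2]
  have h2 := h1.restrict (beN_nonneg hb1.le hb2.le) (E1 := fun N => nearU N (Q 0 1) ε) i hi
    ((eventually_gt_atTop 0).mono (fun N hN ρ hρ => by
      rw [mem_nearU hN _ _ hε.le]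
      rw [mem_near] at hρ
      have h3 := hρ ((0, 0), 0) ((1, 0), 1)
      have h4 : treeM 2 1 u Q Q' ((0, 0), 0) ((1, 0), 1) = Q 0 1 := by
        simp [treeM, treeG]
      rw [h4] at h3
      rw [ov_res]
      exact h3))
  exact h2

end SKC.C
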